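import Mathlib
import Pool.Agent.TH310.Cor.Whit2

/-!
Automorphisms of the ball: Cartan's theorem and a normal form.
-/

set_option autoImplicit false

open Metric Set Filter Topology Complex

namespace Pool.Agent.V7H86.WP

open Pool.Agent.TH310.Cor (V HB Aut Solv SolvL aut_mv Nr)
open Pool.Agent.W732.Cor (mv S_mv S_ball)

variable {n : ℕ}

/-- Cartan's theorem for the ball -/
theorem cartan {κ κ' : V n → V n} (h : Aut κ κ') (h0 : κ 0 = 0) :
    ∃ U : V n ≃ₗᵢ[ℂ] V n, ∀ z ∈ ball (0 : V n) 1, κ z = U z := by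
  have hb0 : (0 : V n) ∈ ball (0 : V n) 1 := mem_ball_self one_pos
  have h0' : κ' 0 = 0 := by
    have h1 := h.i1 0 hb0
    rwa [h0] at h1
  have hle : ∀ {σ : V n → V n}, DifferentiableOn ℂ σ (ball 0 1) → MapsTo σ (ball 0 1) (ball 0 1) →
      σ 0 = 0 → ∀ z ∈ ball (0 : V n) 1, ‖σ z‖ ≤ ‖z‖ := by
    intro σ hd hm h00 z hz
    have h1 := Complex.dist_le_div_mul_dist_of_mapsTo_ball (f := σ) (c := 0) (R₁ := 1) (R₂ := 1) hd
      (fun w hw => by
        rw [h00]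
        exact ball_subset_closedBall (hm hw)) hz
    rw [h00, dist_zero_right, dist_zero_right] at h1
    linarith
  have hn : ∀ z ∈ ball (0 : V n) 1, ‖κ z‖ = ‖z‖ := by
    intro z hz
    refine le_antisymm (hle h.d1 h.m1 h0 z hz) ?_
    have h1 := hle h.d2 h.m2 h0' (κ z) (h.m1 hz)
    rwa [h.i1 z hz] at h1
  have hd0 : DifferentiableAt ℂ κ 0 := h.d1.differentiableAt (isOpen_ball.mem_nhds hb0)
  obtain ⟨A, hA⟩ : ∃ A : V n →L[ℂ] V n, A = fderiv ℂ κ 0 := ⟨_, rfl⟩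
  have hlin : ∀ z ∈ ball (0 : V n) 1, κ z = A z := by
    intro z hz
    by_cases hz0 : z = 0
    · rw [hz0, h0, map_zero]
    have hzn : 0 < ‖z‖ := norm_pos_iff.2 hz0
    have hz1 : ‖z‖ < 1 := mem_ball_zero_iff.1 hz
    obtain ⟨w, hw⟩ : ∃ w : V n, w = ((‖z‖ : ℂ))⁻¹ • z := ⟨_, rfl⟩
    have hw1 : ‖w‖ = 1 := by
      rw [hw, norm_smul, norm_inv, Complex.norm_real, norm_norm]
      exact inv_mul_cancel₀ hzn.ne'
    have hzc : (‖z‖ : ℂ) ≠ 0 := by exact_mod_cast hzn.ne'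
    have hzw : z = (‖z‖ : ℂ) • w := by
      rw [hw, smul_smul, mul_inv_cancel₀ hzc, one_smul]
    have hm : MapsTo (fun ζ : ℂ => ζ • w) (ball 0 1) (ball (0 : V n) 1) := by
      intro ζ hζ
      rw [mem_ball_zero_iff] at hζ ⊢
      rw [norm_smul, hw1, mul_one]
      exact hζ
    have hfd : DifferentiableOn ℂ (fun ζ : ℂ => κ (ζ • w)) (ball 0 1) :=
      h.d1.comp (by fun_prop) hm
    have hf0 : (fun ζ : ℂ => κ (ζ • w)) 0 = 0 := by
      simp only [zero_smul, h0]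
    have hfm : MapsTo (fun ζ : ℂ => κ (ζ • w)) (ball 0 1)
        (closedBall ((fun ζ : ℂ => κ (ζ • w)) 0) 1) := by
      intro ζ hζ
      rw [hf0]
      exact ball_subset_closedBall (h.m1 (hm hζ))
    have hz₀ : (‖z‖ : ℂ) ∈ ball (0 : ℂ) 1 := by
      rw [mem_ball_zero_iff, Complex.norm_real, norm_norm]
      exact hz1
    have hds : ‖dslope (fun ζ : ℂ => κ (ζ • w)) 0 (‖z‖ : ℂ)‖ = 1 / 1 := by
      rw [dslope_of_ne _ hzc, slope_def_module, zero_smul, h0, sub_zero, sub_zero, norm_smul,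
        ← hzw, hn z hz, norm_inv, Complex.norm_real, norm_norm]
      field_simp
    have haff := Complex.affine_of_mapsTo_ball_of_norm_dslope_eq_div hfd hfm hz₀ hds
    obtain ⟨v, hv⟩ : ∃ v : V n, v = dslope (fun ζ : ℂ => κ (ζ • w)) 0 (‖z‖ : ℂ) := ⟨_, rfl⟩
    have haff' : ∀ ζ ∈ ball (0 : ℂ) 1, κ (ζ • w) = ζ • v := by
      intro ζ hζ
      have h1 := haff hζ
      simp only [zero_smul, h0, zero_add, sub_zero] at h1
      rw [h1, hv]
    have hder : HasDerivAt (fun ζ : ℂ => κ (ζ • w)) (A w) 0 := by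
      have h1 : HasFDerivAt κ A ((0 : ℂ) • w) := by
        rw [zero_smul, hA]
        exact hd0.hasFDerivAt
      have h2 : HasDerivAt (fun ζ : ℂ => ζ • w) w 0 := by
        have h3 := (hasDerivAt_id (0 : ℂ)).smul_const w
        simpa using h3
      exact h1.comp_hasDerivAt 0 h2
    have hder2 : HasDerivAt (fun ζ : ℂ => κ (ζ • w)) v 0 := by
      have h2 : HasDerivAt (fun ζ : ℂ => ζ • v) v 0 := by
        have h3 := (hasDerivAt_id (0 : ℂ)).smul_const v
        simpa using h3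
      refine h2.congr_of_eventuallyEq ?_
      filter_upwards [isOpen_ball.mem_nhds (mem_ball_self one_pos : (0 : ℂ) ∈ ball 0 1)] with ζ hζ
      exact haff' ζ hζ
    have hAv : A w = v := hder.unique hder2
    have h5 := haff' _ hz₀
    rw [← hzw] at h5
    rw [h5]
    conv_rhs => rw [hzw]
    rw [map_smul, hAv]
  have hiso : ∀ z, ‖A z‖ = ‖z‖ := by
    intro z
    by_cases hz0 : z = 0
    · rw [hz0, map_zero]
    have hzn : 0 < ‖z‖ := norm_pos_iff.2 hz0
    obtain ⟨c, hc⟩ : ∃ c : ℝ, c = 1 / (2 * ‖z‖) := ⟨_, rfl⟩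
    have hc0 : 0 < c := by rw [hc]; positivity
    have hcz : ‖(c : ℂ) • z‖ = c * ‖z‖ := by
      rw [norm_smul, Complex.norm_real, Real.norm_of_nonneg hc0.le]
    have hcb : (c : ℂ) • z ∈ ball (0 : V n) 1 := by
      rw [mem_ball_zero_iff, hcz, hc]
      have : 1 / (2 * ‖z‖) * ‖z‖ = 1 / 2 := by field_simp
      rw [this]
      norm_num
    have h1 := hn _ hcb
    rw [hlin _ hcb, map_smul, norm_smul, norm_smul] at h1
    have h2 : ‖(c : ℂ)‖ ≠ 0 := by
      rw [Complex.norm_real, Real.norm_of_nonneg hc0.le]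
      exact hc0.ne'
    exact mul_left_cancel₀ h2 h1
  obtain ⟨B, hB⟩ : ∃ B : V n →ₗᵢ[ℂ] V n, ∀ z, B z = A z :=
    ⟨⟨A.toLinearMap, hiso⟩, fun z => rfl⟩
  refine ⟨B.toLinearIsometryEquiv rfl, fun z hz => ?_⟩
  rw [hlin z hz, LinearIsometry.coe_toLinearIsometryEquiv, hB]

end Pool.Agent.V7H86.WP
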