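import Mathlib
import Pool.Agent.V7H86.WP.Cart

/-!
Formulas and estimates for the automorphisms `mv p a` of the ball.
-/

set_option autoImplicit false

open Metric Set Filter Topology Complex

namespace Pool.Agent.V7H86.WP

open Pool.Agent.TH310.Cor (V HB Aut Solv SolvL aut_mv Nr)
open Pool.Agent.W732.Cor (mv S_mv S_ball)

variable {n : ℕ}

theorem inner_pp {p : V n} (hp : ‖p‖ = 1) : (inner ℂ p p : ℂ) = 1 := by
  rw [inner_self_eq_norm_sq_to_K, hp]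
  norm_num

theorem perp {p : V n} (hp : ‖p‖ = 1) (z : V n) : (inner ℂ p (z - (inner ℂ p z : ℂ) • p) : ℂ) = 0 := by
  rw [inner_sub_right, inner_smul_right, inner_pp hp, mul_one, sub_self]

theorem norm_perp {p : V n} (hp : ‖p‖ = 1) (z : V n) :
    ‖z - (inner ℂ p z : ℂ) • p‖ ^ 2 = ‖z‖ ^ 2 - ‖(inner ℂ p z : ℂ)‖ ^ 2 := by
  have h1 : ‖(z - (inner ℂ p z : ℂ) • p) + (inner ℂ p z : ℂ) • p‖ ^ 2 =
      ‖z - (inner ℂ p z : ℂ) • p‖ ^ 2 + ‖(inner ℂ p z : ℂ) • p‖ ^ 2 := by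
    rw [norm_add_sq (𝕜 := ℂ), inner_smul_right, inner_eq_zero_symm.1 (perp hp z)]
    simp
  rw [sub_add_cancel, norm_smul, hp, mul_one] at h1
  linarith

theorem inner_le {p : V n} (hp : ‖p‖ = 1) (z : V n) : ‖(inner ℂ p z : ℂ)‖ ≤ ‖z‖ := by
  have h1 := norm_inner_le_norm (𝕜 := ℂ) p z
  rwa [hp, one_mul] at h1

/-- the numerator of `mv` -/
noncomputable def nu (p : V n) (a : ℂ) (z : V n) : V n :=
  ((inner ℂ p z : ℂ) + a) • p + ((√(1 - ‖a‖ ^ 2) : ℝ) : ℂ) • (z - (inner ℂ p z : ℂ) • p)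

/-- the denominator of `mv` -/
noncomputable def de (p : V n) (a : ℂ) (z : V n) : ℂ := 1 + starRingEnd ℂ a * inner ℂ p z

theorem mv_eq (p : V n) (a : ℂ) (z : V n) : mv p a z = (1 / de p a z) • nu p a z := rfl

theorem inner_nu {p : V n} (hp : ‖p‖ = 1) (a : ℂ) (z : V n) :
    (inner ℂ p (nu p a z) : ℂ) = inner ℂ p z + a := by
  rw [nu, inner_add_right, inner_smul_right, inner_smul_right, inner_pp hp, perp hp]
  ring

theorem inner_mv {p : V n} (hp : ‖p‖ = 1) (a : ℂ) (z : V n) :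
    (inner ℂ p (mv p a z) : ℂ) = (inner ℂ p z + a) / de p a z := by
  rw [mv_eq, inner_smul_right, inner_nu hp]
  ring

theorem inner_mv_perp {p v : V n} (hv : (inner ℂ v p : ℂ) = 0) (a : ℂ) (z : V n) :
    (inner ℂ v (mv p a z) : ℂ) = ((√(1 - ‖a‖ ^ 2) : ℝ) : ℂ) * inner ℂ v z / de p a z := by
  rw [mv_eq, inner_smul_right, nu, inner_add_right, inner_smul_right, inner_smul_right,
    inner_sub_right, inner_smul_right, hv]
  ring

theorem norm_nu_sq {p : V n} (hp : ‖p‖ = 1) {a : ℂ} (ha : ‖a‖ ≤ 1) (z : V n) :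
    ‖nu p a z‖ ^ 2 = ‖(inner ℂ p z : ℂ) + a‖ ^ 2 +
      (1 - ‖a‖ ^ 2) * (‖z‖ ^ 2 - ‖(inner ℂ p z : ℂ)‖ ^ 2) := by
  have h0 : 0 ≤ 1 - ‖a‖ ^ 2 := by nlinarith [norm_nonneg a]
  rw [nu, norm_add_sq (𝕜 := ℂ), inner_smul_left, inner_smul_right, perp hp, norm_smul, norm_smul,
    hp, Complex.norm_real, Real.norm_of_nonneg (Real.sqrt_nonneg _), mul_pow, mul_pow,
    Real.sq_sqrt h0, norm_perp hp]
  simp

theorem de_sq (p : V n) (a : ℂ) (z : V n) : ‖de p a z‖ ^ 2 - ‖(inner ℂ p z : ℂ) + a‖ ^ 2 =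
    (1 - ‖a‖ ^ 2) * (1 - ‖(inner ℂ p z : ℂ)‖ ^ 2) := by
  rw [de]
  generalize (inner ℂ p z : ℂ) = ζ
  rw [Complex.sq_norm, Complex.sq_norm, Complex.sq_norm, Complex.sq_norm, normSq_apply,
    normSq_apply, normSq_apply, normSq_apply]
  simp only [Complex.add_re, Complex.add_im, Complex.mul_re, Complex.mul_im, Complex.conj_re,
    Complex.conj_im, Complex.one_re, Complex.one_im]
  ring

theorem norm_mv_le {p : V n} (hp : ‖p‖ = 1) {a : ℂ} (ha : ‖a‖ ≤ 1) {z : V n} (hz : ‖z‖ ≤ 1) :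
    ‖mv p a z‖ ≤ 1 := by
  by_cases hD : de p a z = 0
  · rw [mv_eq, hD, div_zero, zero_smul, norm_zero]
    exact zero_le_one
  have hD0 : 0 < ‖de p a z‖ := norm_pos_iff.2 hD
  have h1 := norm_nu_sq hp ha z
  have h2 := de_sq p a z
  have h0 : 0 ≤ 1 - ‖a‖ ^ 2 := by nlinarith [norm_nonneg a]
  have h3 : ‖nu p a z‖ ^ 2 ≤ ‖de p a z‖ ^ 2 := by
    have h4 : 0 ≤ (1 - ‖a‖ ^ 2) * (1 - ‖z‖ ^ 2) := mul_nonneg h0 (by nlinarith [norm_nonneg z])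
    nlinarith
  have h4 : ‖nu p a z‖ ≤ ‖de p a z‖ := (sq_le_sq₀ (norm_nonneg _) hD0.le).1 h3
  rw [mv_eq, norm_smul, norm_div, norm_one, one_div, ← div_eq_inv_mul]
  exact (div_le_one hD0).2 h4

theorem de_lip {p : V n} (hp : ‖p‖ = 1) {a : ℂ} (ha : ‖a‖ ≤ 1) (z w : V n) :
    ‖de p a z - de p a w‖ ≤ ‖z - w‖ := by
  have h1 : de p a z - de p a w = starRingEnd ℂ a * inner ℂ p (z - w) := by
    rw [de, de, inner_sub_right]
    ring
  rw [h1, norm_mul, RCLike.norm_conj]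
  have h2 := inner_le hp (z - w)
  have h3 := norm_nonneg (inner ℂ p (z - w) : ℂ)
  nlinarith [norm_nonneg a]

theorem nu_lip {p : V n} (hp : ‖p‖ = 1) (a : ℂ) (z w : V n) :
    ‖nu p a z - nu p a w‖ ≤ 3 * ‖z - w‖ := by
  have h1 : nu p a z - nu p a w = (inner ℂ p (z - w) : ℂ) • p +
      ((√(1 - ‖a‖ ^ 2) : ℝ) : ℂ) • ((z - w) - (inner ℂ p (z - w) : ℂ) • p) := by
    rw [nu, nu, inner_sub_right]
    module
  have h2 := inner_le hp (z - w)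
  have hs : √(1 - ‖a‖ ^ 2) ≤ 1 := by
    rw [Real.sqrt_le_one]
    nlinarith [sq_nonneg ‖a‖]
  rw [h1]
  refine (norm_add_le _ _).trans ?_
  rw [norm_smul, norm_smul, hp, Complex.norm_real, Real.norm_of_nonneg (Real.sqrt_nonneg _)]
  have h3 := norm_sub_le (z - w) ((inner ℂ p (z - w) : ℂ) • p)
  rw [norm_smul, hp] at h3
  have h4 : √(1 - ‖a‖ ^ 2) * ‖(z - w) - (inner ℂ p (z - w) : ℂ) • p‖ ≤
      1 * ‖(z - w) - (inner ℂ p (z - w) : ℂ) • p‖ :=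
    mul_le_mul_of_nonneg_right hs (norm_nonneg _)
  linarith

/-- Lipschitz estimate -/
theorem mv_lip {p : V n} (hp : ‖p‖ = 1) {a : ℂ} (ha : ‖a‖ ≤ 1) {z w : V n}
    (hw : ‖w‖ ≤ 1) {d : ℝ} (hd : 0 < d) (hdz : d ≤ ‖de p a z‖) (hdw : d ≤ ‖de p a w‖) :
    ‖mv p a z - mv p a w‖ ≤ 4 / d * ‖z - w‖ := by
  have hz0 : de p a z ≠ 0 := norm_pos_iff.1 (hd.trans_le hdz)
  have hw0 : de p a w ≠ 0 := norm_pos_iff.1 (hd.trans_le hdw)
  have h1 : mv p a z - mv p a w = (1 / de p a z) • ((nu p a z - nu p a w) -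
      (de p a z - de p a w) • mv p a w) := by
    have h2 : nu p a w = de p a w • mv p a w := by
      rw [mv_eq, smul_smul, mul_one_div_cancel hw0, one_smul]
    have h3 : mv p a w = (1 / de p a z) • (de p a z • mv p a w) := by
      rw [smul_smul, one_div_mul_cancel hz0, one_smul]
    rw [h2]
    conv_lhs => rw [mv_eq p a z, h3]
    module
  rw [h1, norm_smul, norm_div, norm_one]
  have h2 := nu_lip hp a z w
  have h3 := de_lip hp ha z w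
  have h4 := norm_mv_le hp ha hw
  have h5 : ‖(nu p a z - nu p a w) - (de p a z - de p a w) • mv p a w‖ ≤ 4 * ‖z - w‖ := by
    refine (norm_sub_le _ _).trans ?_
    rw [norm_smul]
    have h6 := mul_le_mul h3 h4 (norm_nonneg _) (norm_nonneg _)
    linarith
  have h6 : 1 / ‖de p a z‖ ≤ 1 / d := one_div_le_one_div_of_le hd hdz
  have h7 : 0 ≤ ‖z - w‖ := norm_nonneg _
  calc 1 / ‖de p a z‖ * ‖(nu p a z - nu p a w) - (de p a z - de p a w) • mv p a w‖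
      ≤ 1 / d * (4 * ‖z - w‖) := mul_le_mul h6 h5 (norm_nonneg _) (by positivity)
    _ = 4 / d * ‖z - w‖ := by ring

theorem de_ge {p : V n} (hp : ‖p‖ = 1) (a : ℂ) {z : V n} (hz : ‖z‖ ≤ 1) :
    1 - ‖a‖ ≤ ‖de p a z‖ := by
  have h1 := norm_sub_norm_le (1 : ℂ) (-(starRingEnd ℂ a * inner ℂ p z))
  rw [norm_one, norm_neg, sub_neg_eq_add, norm_mul, RCLike.norm_conj] at h1
  have h2 := (inner_le hp z).trans hz
  have h3 : ‖a‖ * ‖(inner ℂ p z : ℂ)‖ ≤ ‖a‖ * 1 := mul_le_mul_of_nonneg_left h2 (norm_nonneg _)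
  rw [de]
  linarith

/-- rotations -/
theorem mv_rot (U : V n ≃ₗᵢ[ℂ] V n) (p : V n) (a : ℂ) (z : V n) :
    mv (U p) a (U z) = U (mv p a z) := by
  rw [mv_eq, mv_eq, de, de, nu, nu, U.inner_map_map]
  simp only [map_smul, map_add, map_sub]

theorem mv_zero_arg (p : V n) (a : ℂ) : mv p a 0 = a • p := by
  rw [mv_eq, de, nu, inner_zero_right]
  simp

/-- the linear isometries `D_θ` -/
noncomputable def Dt (p : V n) (θ : ℂ) (z : V n) : V n :=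
  θ • z + (θ ^ 2 - θ) • ((inner ℂ p z : ℂ) • p)

theorem Dt_norm {p : V n} (hp : ‖p‖ = 1) {θ : ℂ} (hθ : ‖θ‖ = 1) (z : V n) :
    ‖Dt p θ z‖ = ‖z‖ := by
  have h1 : Dt p θ z = θ • (z - (inner ℂ p z : ℂ) • p) + (θ ^ 2 * inner ℂ p z) • p := by
    rw [Dt]
    module
  have h2 : ‖Dt p θ z‖ ^ 2 = ‖z‖ ^ 2 := by
    rw [h1, norm_add_sq (𝕜 := ℂ), inner_smul_left, inner_smul_right, ← inner_conj_symm _ p,
      perp hp, norm_smul, norm_smul, norm_mul, norm_pow, hθ, hp, one_mul, one_pow, one_mul, mul_one,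
      norm_perp hp]
    simp
  exact (sq_eq_sq₀ (norm_nonneg _) (norm_nonneg _)).1 h2

theorem Dt_lip {p : V n} (hp : ‖p‖ = 1) {θ : ℂ} (hθ : ‖θ‖ = 1) (z w : V n) :
    ‖Dt p θ z - Dt p θ w‖ = ‖z - w‖ := by
  have h1 : Dt p θ z - Dt p θ w = Dt p θ (z - w) := by
    rw [Dt, Dt, Dt, inner_sub_right]
    module
  rw [h1, Dt_norm hp hθ]

theorem Dt_inv {p : V n} (hp : ‖p‖ = 1) {θ : ℂ} (hθ : ‖θ‖ = 1) (z : V n) :
    Dt p (starRingEnd ℂ θ) (Dt p θ z) = z := by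
  have h1 : (inner ℂ p (Dt p θ z) : ℂ) = θ ^ 2 * inner ℂ p z := by
    rw [Dt, inner_add_right, inner_smul_right, inner_smul_right, inner_smul_right, inner_pp hp]
    ring
  have h2 : starRingEnd ℂ θ * θ = 1 := by
    rw [← Complex.normSq_eq_conj_mul_self, Complex.normSq_eq_norm_sq, hθ]
    norm_num
  rw [Dt, h1, Dt, smul_add, smul_smul, h2, one_smul, add_assoc, smul_smul, smul_smul, smul_smul,
    ← add_smul]
  have h3 : starRingEnd ℂ θ * (θ ^ 2 - θ) * inner ℂ p z +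
      ((starRingEnd ℂ θ) ^ 2 - starRingEnd ℂ θ) * (θ ^ 2 * inner ℂ p z) = 0 := by
    linear_combination (inner ℂ p z : ℂ) * (starRingEnd ℂ θ * θ) * h2
  rw [h3, zero_smul, add_zero]

theorem Dt_diff (p : V n) (θ : ℂ) (S : Set (V n)) : DifferentiableOn ℂ (Dt p θ) S := by
  have h1 : Differentiable ℂ (fun z : V n => (inner ℂ p z : ℂ)) := (innerSL ℂ p).differentiable
  unfold Dt
  exact ((differentiable_id.fun_const_smul θ).fun_add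
    ((h1.smul_const p).fun_const_smul (θ ^ 2 - θ))).differentiableOn

theorem Dt_aut {p : V n} (hp : ‖p‖ = 1) {θ : ℂ} (hθ : ‖θ‖ = 1) :
    Aut (Dt p θ) (Dt p (starRingEnd ℂ θ)) := by
  have hθ' : ‖starRingEnd ℂ θ‖ = 1 := by rw [RCLike.norm_conj, hθ]
  refine ⟨Dt_diff _ _ _, Dt_diff _ _ _, fun z hz => ?_, fun z hz => ?_, fun z _ => Dt_inv hp hθ z,
    fun z _ => ?_⟩
  · rw [mem_ball_zero_iff] at hz ⊢
    rwa [Dt_norm hp hθ]
  · rw [mem_ball_zero_iff] at hz ⊢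
    rwa [Dt_norm hp hθ']
  · have h1 := Dt_inv hp hθ' z
    rwa [Complex.conj_conj] at h1

theorem U_aut (U : V n ≃ₗᵢ[ℂ] V n) : Aut (fun z => U z) (fun z => U.symm z) := by
  refine ⟨U.toContinuousLinearEquiv.differentiable.differentiableOn,
    U.symm.toContinuousLinearEquiv.differentiable.differentiableOn, fun z hz => ?_, fun z hz => ?_,
    fun z _ => U.symm_apply_apply z, fun z _ => U.apply_symm_apply z⟩
  · rw [mem_ball_zero_iff] at hz ⊢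
    rwa [U.norm_map]
  · rw [mem_ball_zero_iff] at hz ⊢
    rwa [U.symm.norm_map]

/-- composition along a geodesic -/
theorem mv_comp {p : V n} (hp : ‖p‖ = 1) {a b : ℂ} (ha : ‖a‖ < 1) (hb : ‖b‖ < 1) :
    ∃ (c θ : ℂ), ‖c‖ < 1 ∧ ‖θ‖ = 1 ∧ (1 - ‖c‖ ^ 2) * ‖1 + a * starRingEnd ℂ b‖ ^ 2 =
      (1 - ‖a‖ ^ 2) * (1 - ‖b‖ ^ 2) ∧
      ∀ z ∈ ball (0 : V n) 1, mv p b (mv p a z) = Dt p θ (mv p c z) := by
  obtain ⟨κ, hκ⟩ : ∃ κ : ℂ, κ = 1 + a * starRingEnd ℂ b := ⟨_, rfl⟩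
  have hab : ‖a * starRingEnd ℂ b‖ < 1 := by
    rw [norm_mul, RCLike.norm_conj]
    nlinarith [norm_nonneg a, norm_nonneg b]
  have hκ0 : κ ≠ 0 := by
    intro h
    have h1 : a * starRingEnd ℂ b = -1 := by
      rw [hκ] at h
      linear_combination h
    rw [h1, norm_neg, norm_one] at hab
    exact lt_irrefl _ hab
  have hκn : 0 < ‖κ‖ := norm_pos_iff.2 hκ0
  have hκc : starRingEnd ℂ κ ≠ 0 := by
    rw [Ne, map_eq_zero]
    exact hκ0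
  have hκcn : ‖starRingEnd ℂ κ‖ = ‖κ‖ := RCLike.norm_conj κ
  have hid : ‖κ‖ ^ 2 - ‖a + b‖ ^ 2 = (1 - ‖a‖ ^ 2) * (1 - ‖b‖ ^ 2) := by
    rw [hκ, Complex.sq_norm, Complex.sq_norm, Complex.sq_norm, Complex.sq_norm, normSq_apply,
      normSq_apply, normSq_apply, normSq_apply]
    simp only [Complex.add_re, Complex.add_im, Complex.mul_re, Complex.mul_im, Complex.conj_re,
      Complex.conj_im, Complex.one_re, Complex.one_im]
    ring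
  have ha2 : 0 < 1 - ‖a‖ ^ 2 := by nlinarith [norm_nonneg a]
  have hb2 : 0 < 1 - ‖b‖ ^ 2 := by nlinarith [norm_nonneg b]
  obtain ⟨c, hc⟩ : ∃ c : ℂ, c = (a + b) / starRingEnd ℂ κ := ⟨_, rfl⟩
  have hcn : ‖c‖ = ‖a + b‖ / ‖κ‖ := by rw [hc, norm_div, hκcn]
  have hcid : (1 - ‖c‖ ^ 2) * ‖κ‖ ^ 2 = (1 - ‖a‖ ^ 2) * (1 - ‖b‖ ^ 2) := by
    rw [hcn, ← hid]
    field_simp
  have hc1 : ‖c‖ < 1 := by
    rw [hcn, div_lt_one hκn]
    have h1 : 0 < (1 - ‖a‖ ^ 2) * (1 - ‖b‖ ^ 2) := mul_pos ha2 hb2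
    have h2 : ‖a + b‖ ^ 2 < ‖κ‖ ^ 2 := by linarith
    exact lt_of_pow_lt_pow_left₀ 2 hκn.le h2
  obtain ⟨θ, hθ⟩ : ∃ θ : ℂ, θ = (‖κ‖ : ℂ) / κ := ⟨_, rfl⟩
  have hθ1 : ‖θ‖ = 1 := by
    rw [hθ, norm_div, Complex.norm_real, norm_norm]
    exact div_self hκn.ne'
  refine ⟨c, θ, hc1, hθ1, by rw [← hκ]; exact hcid, fun z hz => ?_⟩
  have hz1 := mem_ball_zero_iff.1 hz
  obtain ⟨ζ, hζ⟩ : ∃ ζ : ℂ, ζ = inner ℂ p z := ⟨_, rfl⟩
  have hζ1 : ‖ζ‖ < 1 := by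
    rw [hζ]
    exact (inner_le hp z).trans_lt hz1
  obtain ⟨y, hy⟩ : ∃ y : V n, y = z - ζ • p := ⟨_, rfl⟩
  obtain ⟨sa, hsa⟩ : ∃ s : ℂ, s = ((√(1 - ‖a‖ ^ 2) : ℝ) : ℂ) := ⟨_, rfl⟩
  obtain ⟨sb, hsb⟩ : ∃ s : ℂ, s = ((√(1 - ‖b‖ ^ 2) : ℝ) : ℂ) := ⟨_, rfl⟩
  obtain ⟨sc, hsc⟩ : ∃ s : ℂ, s = ((√(1 - ‖c‖ ^ 2) : ℝ) : ℂ) := ⟨_, rfl⟩
  have hD1 : (1 + starRingEnd ℂ a * ζ) ≠ 0 := by
    intro h
    have h1 : starRingEnd ℂ a * ζ = -1 := by linear_combination h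
    have h2 : ‖starRingEnd ℂ a * ζ‖ = 1 := by rw [h1, norm_neg, norm_one]
    rw [norm_mul, RCLike.norm_conj] at h2
    nlinarith [norm_nonneg a, norm_nonneg ζ]
  have hsabc : sa * sb = sc * (‖κ‖ : ℂ) := by
    rw [hsa, hsb, hsc]
    have h1 : √(1 - ‖a‖ ^ 2) * √(1 - ‖b‖ ^ 2) = √(1 - ‖c‖ ^ 2) * ‖κ‖ := by
      rw [← Real.sqrt_mul ha2.le, ← hcid, Real.sqrt_mul (by nlinarith [norm_nonneg c]),
        Real.sqrt_sq (norm_nonneg _)]
    exact_mod_cast h1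
  -- the denominator of the composition
  have hD2 : κ + (starRingEnd ℂ a + starRingEnd ℂ b) * ζ =
      κ * (1 + starRingEnd ℂ c * ζ) := by
    rw [hc, map_div₀, map_add, Complex.conj_conj]
    field_simp
  have hD3 : (1 + starRingEnd ℂ c * ζ) ≠ 0 := by
    intro h
    have h1 : starRingEnd ℂ c * ζ = -1 := by linear_combination h
    have h2 : ‖starRingEnd ℂ c * ζ‖ = 1 := by rw [h1, norm_neg, norm_one]
    rw [norm_mul, RCLike.norm_conj] at h2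
    nlinarith [norm_nonneg c, norm_nonneg ζ]
  have hsub : mv p a z - (inner ℂ p (mv p a z) : ℂ) • p = (sa / (1 + starRingEnd ℂ a * ζ)) • y := by
    rw [inner_mv hp, mv_eq, nu, de, ← hζ, ← hy, ← hsa]
    module
  have hinn : (inner ℂ p (mv p a z) : ℂ) = (ζ + a) / (1 + starRingEnd ℂ a * ζ) := by
    rw [inner_mv hp, de, ← hζ]
  have hden : de p b (mv p a z) = (κ * (1 + starRingEnd ℂ c * ζ)) / (1 + starRingEnd ℂ a * ζ) := by
    have h9 : (ζ + a) / (1 + starRingEnd ℂ a * ζ) * (1 + starRingEnd ℂ a * ζ) = ζ + a :=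
      div_mul_cancel₀ _ hD1
    rw [← hD2, de, hinn, hκ, eq_div_iff hD1]
    linear_combination (starRingEnd ℂ b) * h9
  have hL : mv p b (mv p a z) = (((ζ + a) / (1 + starRingEnd ℂ a * ζ) + b) /
      ((κ * (1 + starRingEnd ℂ c * ζ)) / (1 + starRingEnd ℂ a * ζ))) • p +
      (sb * (sa / (1 + starRingEnd ℂ a * ζ)) /
        ((κ * (1 + starRingEnd ℂ c * ζ)) / (1 + starRingEnd ℂ a * ζ))) • y := by
    rw [mv_eq, hden, nu, hsub, hinn, ← hsb]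
    module
  have hR : Dt p θ (mv p c z) = (θ ^ 2 * ((ζ + c) / (1 + starRingEnd ℂ c * ζ))) • p +
      (θ * (sc / (1 + starRingEnd ℂ c * ζ))) • y := by
    rw [Dt, inner_mv hp, mv_eq, nu, de, ← hζ, ← hy, ← hsc]
    module
  rw [hL, hR]
  have hκκ : κ * starRingEnd ℂ κ = (‖κ‖ : ℂ) ^ 2 := by
    rw [Complex.mul_conj, Complex.normSq_eq_norm_sq]
    push_cast
    rfl
  congr 1
  · congr 1
    have h1 : (ζ + a) / (1 + starRingEnd ℂ a * ζ) + b =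
        (starRingEnd ℂ κ * (ζ + c)) / (1 + starRingEnd ℂ a * ζ) := by
      have h2 : starRingEnd ℂ κ * (ζ + c) = starRingEnd ℂ κ * ζ + (a + b) := by
        rw [hc]
        field_simp
      have h9 : (ζ + a) / (1 + starRingEnd ℂ a * ζ) * (1 + starRingEnd ℂ a * ζ) = ζ + a :=
        div_mul_cancel₀ _ hD1
      rw [h2, hκ, map_add, map_one, map_mul, Complex.conj_conj, eq_div_iff hD1]
      linear_combination h9
    rw [h1, hθ, div_pow, ← hκκ]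
    generalize (1 + starRingEnd ℂ a * ζ) = X1 at hD1 ⊢
    generalize (1 + starRingEnd ℂ c * ζ) = X3 at hD3 ⊢
    field_simp
  · congr 1
    rw [hθ]
    generalize (1 + starRingEnd ℂ a * ζ) = X1 at hD1 ⊢
    generalize (1 + starRingEnd ℂ c * ζ) = X3 at hD3 ⊢
    field_simp
    linear_combination hsabc

/-- the ellipsoid -/
def EE (p : V n) (ε : ℝ) : Set (V n) := {y | (1 - ε) * ‖y‖ ^ 2 + ε * ‖(inner ℂ p y : ℂ)‖ ^ 2 < 1}

theorem EE_inner {p : V n} (hp : ‖p‖ = 1) {ε : ℝ} (hε : ε ≤ 1) {y : V n}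
    (hy : y ∈ EE p ε) : ‖(inner ℂ p y : ℂ)‖ < 1 := by
  have h1 := inner_le hp y
  have h2 : ‖(inner ℂ p y : ℂ)‖ ^ 2 ≤ ‖y‖ ^ 2 := pow_le_pow_left₀ (norm_nonneg _) h1 2
  have h3 : (1 - ε) * ‖y‖ ^ 2 + ε * ‖(inner ℂ p y : ℂ)‖ ^ 2 < 1 := hy
  have h4 := mul_le_mul_of_nonneg_left h2 (sub_nonneg.2 hε)
  have h5 : ‖(inner ℂ p y : ℂ)‖ ^ 2 < 1 := by nlinarith
  nlinarith [norm_nonneg (inner ℂ p y : ℂ)]

theorem ball_EE {p : V n} (hp : ‖p‖ = 1) {ε : ℝ} (hε0 : 0 ≤ ε) :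
    ball (0 : V n) 1 ⊆ EE p ε := by
  intro y hy
  have h0 := mem_ball_zero_iff.1 hy
  have h1 := inner_le hp y
  have h2 : ‖(inner ℂ p y : ℂ)‖ ^ 2 ≤ ‖y‖ ^ 2 := pow_le_pow_left₀ (norm_nonneg _) h1 2
  have h3 := mul_le_mul_of_nonneg_left h2 hε0
  have h4 : ‖y‖ ^ 2 < 1 := by nlinarith [norm_nonneg y]
  change (1 - ε) * ‖y‖ ^ 2 + ε * ‖(inner ℂ p y : ℂ)‖ ^ 2 < 1
  linarith

theorem mv_EE {p : V n} (hp : ‖p‖ = 1) {ε : ℝ} (hε : ε ≤ 1) {a : ℂ} (ha : ‖a‖ < 1) {y : V n}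
    (hy : y ∈ EE p ε) : mv p a y ∈ EE p ε := by
  have h1 := EE_inner hp hε hy
  have hy' : (1 - ε) * ‖y‖ ^ 2 + ε * ‖(inner ℂ p y : ℂ)‖ ^ 2 < 1 := hy
  have hs : 0 < 1 - ‖a‖ ^ 2 := by nlinarith [norm_nonneg a]
  have h2 := de_sq p a y
  have h3 := norm_nu_sq hp ha.le y
  have h4 : 0 < ‖de p a y‖ ^ 2 := by
    have h5 : 0 < (1 - ‖a‖ ^ 2) * (1 - ‖(inner ℂ p y : ℂ)‖ ^ 2) :=
      mul_pos hs (by nlinarith [norm_nonneg (inner ℂ p y : ℂ)])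
    nlinarith [sq_nonneg ‖(inner ℂ p y : ℂ) + a‖]
  change (1 - ε) * ‖mv p a y‖ ^ 2 + ε * ‖(inner ℂ p (mv p a y) : ℂ)‖ ^ 2 < 1
  rw [inner_mv hp, mv_eq, norm_smul, norm_div, norm_div, norm_one, mul_pow, div_pow, div_pow, h3]
  have h5 : (1 - ε) * ((1 : ℝ) ^ 2 / ‖de p a y‖ ^ 2 * (‖(inner ℂ p y : ℂ) + a‖ ^ 2 +
      (1 - ‖a‖ ^ 2) * (‖y‖ ^ 2 - ‖(inner ℂ p y : ℂ)‖ ^ 2))) +
      ε * (‖(inner ℂ p y : ℂ) + a‖ ^ 2 / ‖de p a y‖ ^ 2) =
      (‖(inner ℂ p y : ℂ) + a‖ ^ 2 +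
      (1 - ε) * (1 - ‖a‖ ^ 2) * (‖y‖ ^ 2 - ‖(inner ℂ p y : ℂ)‖ ^ 2)) / ‖de p a y‖ ^ 2 := by
    field_simp
    ring
  rw [h5, div_lt_one h4]
  nlinarith

theorem mv_diff_EE {p : V n} (hp : ‖p‖ = 1) {ε : ℝ} (hε : ε ≤ 1) {a : ℂ} (ha : ‖a‖ < 1) :
    DifferentiableOn ℂ (mv p a) (EE p ε) := by
  have h1 : Differentiable ℂ (fun z : V n => (inner ℂ p z : ℂ)) := (innerSL ℂ p).differentiable
  have h2 : Differentiable ℂ (nu p a) := by
    unfold nu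
    exact ((h1.add_const a).smul_const p).fun_add
      ((differentiable_id.fun_sub (h1.smul_const p)).fun_const_smul _)
  have h3 : Differentiable ℂ (de p a) := by
    unfold de
    exact (h1.const_mul _).const_add 1
  have h4 : ∀ z ∈ EE p ε, de p a z ≠ 0 := by
    intro z hz h
    have h5 := EE_inner hp hε hz
    rw [de] at h
    have h6 : starRingEnd ℂ a * inner ℂ p z = -1 := by linear_combination h
    have h7 : ‖starRingEnd ℂ a * (inner ℂ p z : ℂ)‖ = 1 := by rw [h6, norm_neg, norm_one]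
    rw [norm_mul, RCLike.norm_conj] at h7
    nlinarith [norm_nonneg a, norm_nonneg (inner ℂ p z : ℂ)]
  have h5 : DifferentiableOn ℂ (fun z => 1 / de p a z) (EE p ε) := by
    simp only [one_div]
    exact h3.differentiableOn.fun_inv h4
  exact h5.fun_smul h2.differentiableOn

theorem EE_open (p : V n) (ε : ℝ) : IsOpen (EE p ε) := by
  have h1 : Continuous (fun z : V n => (inner ℂ p z : ℂ)) := (innerSL ℂ p).continuous
  exact isOpen_lt (by fun_prop) continuous_const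

end Pool.Agent.V7H86.WP
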