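import Mathlib
import Pool.Agent.V7H86.WP.Mv
import Pool.Agent.W732.Cor.All

/-!
Normal form of the automorphisms, and transport of local solvability by automorphisms which are
Lipschitz in both directions.
-/

set_option autoImplicit false

open Metric Set Filter Topology Complex

namespace Pool.Agent.V7H86.WP

open Pool.Agent.TH310.Cor (V HB Aut Solv SolvL aut_mv Nr)
open Pool.Agent.W732.Cor (mv S_mv S_ball t_mv t_ball)

variable {n : ℕ}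

/-- normal form -/
theorem normal {p : V n} (hp : ‖p‖ = 1) {ψ φ : V n → V n} (h : Aut ψ φ) :
    ∃ (c : ℂ) (U : V n ≃ₗᵢ[ℂ] V n) (u : V n) (t : ℝ), ‖c‖ < 1 ∧ ‖u‖ = 1 ∧ 0 ≤ t ∧ t < 1 ∧
      (t : ℂ) * inner ℂ p (U u) = 0 ∧
      ∀ z ∈ ball (0 : V n) 1, ψ z = mv p c (U (mv u (-(t : ℂ)) z)) := by
  have hb0 : (0 : V n) ∈ ball (0 : V n) 1 := mem_ball_self one_pos
  obtain ⟨c, hc⟩ : ∃ c : ℂ, c = inner ℂ p (ψ 0) := ⟨_, rfl⟩
  have hc1 : ‖c‖ < 1 := by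
    rw [hc]
    exact (inner_le hp _).trans_lt (mem_ball_zero_iff.1 (h.m1 hb0))
  have hAc : Aut (mv p (-c)) (mv p (- -c)) := aut_mv t_mv hp (by
    rw [mem_ball_zero_iff, norm_neg]
    exact hc1)
  rw [neg_neg] at hAc
  have h1 : Aut (fun z => mv p (-c) (ψ z)) (fun z => φ (mv p c z)) := hAc.comp h
  obtain ⟨b, hb⟩ : ∃ b : V n, b = φ (mv p c 0) := ⟨_, rfl⟩
  have hbB : b ∈ ball (0 : V n) 1 := by
    rw [hb]
    exact h1.m2 hb0
  have hψb : mv p (-c) (ψ b) = 0 := by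
    rw [hb]
    exact h1.i2 0 hb0
  obtain ⟨t, ht⟩ : ∃ t : ℝ, t = ‖b‖ := ⟨_, rfl⟩
  have ht0 : 0 ≤ t := by rw [ht]; exact norm_nonneg _
  have ht1 : t < 1 := by rw [ht]; exact mem_ball_zero_iff.1 hbB
  obtain ⟨u, hu, hbu⟩ : ∃ u : V n, ‖u‖ = 1 ∧ b = (t : ℂ) • u := by
    by_cases hb0 : b = 0
    · refine ⟨p, hp, ?_⟩
      rw [ht, hb0, norm_zero]
      simp
    · have hbn : 0 < ‖b‖ := norm_pos_iff.2 hb0
      have hbc : ((‖b‖ : ℝ) : ℂ) ≠ 0 := by exact_mod_cast hbn.ne'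
      refine ⟨((‖b‖ : ℝ) : ℂ)⁻¹ • b, ?_, ?_⟩
      · rw [norm_smul, norm_inv, Complex.norm_real, norm_norm]
        exact inv_mul_cancel₀ hbn.ne'
      · rw [ht, smul_smul, mul_inv_cancel₀ hbc, one_smul]
  have htb : (t : ℂ) ∈ ball (0 : ℂ) 1 := by
    rw [mem_ball_zero_iff, Complex.norm_real, Real.norm_of_nonneg ht0]
    exact ht1
  have hAt : Aut (mv u (t : ℂ)) (mv u (-(t : ℂ))) := aut_mv t_mv hu htb
  have h2 : Aut (fun z => mv p (-c) (ψ (mv u (t : ℂ) z)))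
      (fun z => mv u (-(t : ℂ)) (φ (mv p c z))) := h1.comp hAt
  obtain ⟨U, hU⟩ := cartan h2 (by
    beta_reduce
    rw [mv_zero_arg, ← hbu, hψb])
  have h3 : ∀ z ∈ ball (0 : V n) 1, mv p (-c) (ψ z) = U (mv u (-(t : ℂ)) z) := by
    intro z hz
    have h4 := hU _ (hAt.m2 hz)
    beta_reduce at h4
    rwa [hAt.i2 z hz] at h4
  refine ⟨c, U, u, t, hc1, hu, ht0, ht1, ?_, fun z hz => ?_⟩
  · have h4 := h3 0 hb0
    rw [mv_zero_arg, map_smul] at h4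
    have h5 : (inner ℂ p (mv p (-c) (ψ 0)) : ℂ) = 0 := by
      rw [inner_mv hp, ← hc, add_neg_cancel, zero_div]
    rw [h4, inner_smul_right] at h5
    linear_combination -h5
  · rw [← h3 z hz]
    exact (hAc.i1 _ (h.m1 hz)).symm

/-- unitary maps are transitive on the sphere -/
theorem exists_rot {u v : V n} (hu : ‖u‖ = 1) (hv : ‖v‖ = 1) :
    ∃ R : V n ≃ₗᵢ[ℂ] V n, R u = v := by
  have hn : 0 < n := by
    rcases Nat.eq_zero_or_pos n with h | h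
    · exfalso
      subst h
      have h1 : u = 0 := Subsingleton.elim _ _
      rw [h1, norm_zero] at hu
      exact zero_ne_one hu
    · exact h
  have : NeZero n := ⟨hn.ne'⟩
  have hb : ∀ w : V n, ‖w‖ = 1 → ∃ b : OrthonormalBasis (Fin n) ℂ (V n), b 0 = w := by
    intro w hw
    have h1 : Orthonormal ℂ (({0} : Set (Fin n)).domRestrict fun _ => w) := by
      constructor
      · intro i
        exact hw
      · intro i j hij
        exact absurd (Subsingleton.elim i j) hij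
    obtain ⟨b, hb⟩ := h1.exists_orthonormalBasis_extension_of_card_eq (by simp)
    exact ⟨b, hb 0 rfl⟩
  obtain ⟨b, hb1⟩ := hb u hu
  obtain ⟨b', hb2⟩ := hb v hv
  refine ⟨b.equiv b' (Equiv.refl _), ?_⟩
  rw [← hb1, OrthonormalBasis.equiv_apply_basis, ← hb2]
  rfl

theorem split {I ι : Type} [Fintype ι] {F : I → ι → V n → ℂ} {q : V n} (P : I → Prop)
    (h1 : SolvL (fun (x : {i // P i}) => F x.1) q)
    (h2 : SolvL (fun (x : {i // ¬ P i}) => F x.1) q) : SolvL F q := by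
  obtain ⟨C, r, hr, h1⟩ := h1
  obtain ⟨C', r', hr', h2⟩ := h2
  have hs1 : ball (0 : V n) 1 ∩ ball q (min r r') ⊆ ball 0 1 ∩ ball q r :=
    inter_subset_inter_right _ (ball_subset_ball (min_le_left _ _))
  have hs2 : ball (0 : V n) 1 ∩ ball q (min r r') ⊆ ball 0 1 ∩ ball q r' :=
    inter_subset_inter_right _ (ball_subset_ball (min_le_right _ _))
  refine ⟨max C C', min r r', lt_min hr hr', fun i => ?_⟩
  by_cases hi : P i
  · obtain ⟨g, h3, h4, h5⟩ := h1 ⟨i, hi⟩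
    exact ⟨g, fun j => (h3 j).mono hs1, fun j z hz => (h4 j z (hs1 hz)).trans (le_max_left _ _),
      fun z hz => h5 z (hs1 hz)⟩
  · obtain ⟨g, h3, h4, h5⟩ := h2 ⟨i, hi⟩
    exact ⟨g, fun j => (h3 j).mono hs2, fun j z hz => (h4 j z (hs2 hz)).trans (le_max_right _ _),
      fun z hz => h5 z (hs2 hz)⟩

theorem exists_low {X : Type} (t : Finset X) (δ : X → ℝ) (h : ∀ x ∈ t, 0 < δ x) :
    ∃ m : ℝ, 0 < m ∧ ∀ x ∈ t, m ≤ δ x := by
  classical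
  induction t using Finset.induction_on with
  | empty => exact ⟨1, one_pos, by simp⟩
  | insert a t ha ih =>
    obtain ⟨m, hm, h1⟩ := ih fun x hx => h x (Finset.mem_insert_of_mem hx)
    refine ⟨min m (δ a), lt_min hm (h a (Finset.mem_insert_self _ _)), fun x hx => ?_⟩
    rcases Finset.mem_insert.1 hx with rfl | hx
    · exact min_le_right _ _
    · exact (min_le_left _ _).trans (h1 x hx)

/-- points near a boundary point are mapped near the boundary -/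
theorem near_bd {q : V n} (hq : ‖q‖ = 1) {σ τ : V n → V n} (hA : Aut σ τ) {Λ : ℝ} (hΛ : 1 ≤ Λ)
    (hσ : ∀ z ∈ ball (0 : V n) 1, ∀ w ∈ ball (0 : V n) 1, ‖σ z - σ w‖ ≤ Λ * ‖z - w‖) {r : ℝ}
    (hr : 0 < r) (hr1 : r < 1) : 1 - ‖σ ((1 - r : ℝ) • q)‖ ≤ 3 * Λ * r := by
  by_contra hcon
  push Not at hcon
  obtain ⟨w, hw⟩ : ∃ w : V n, w = σ ((1 - r : ℝ) • q) := ⟨_, rfl⟩
  rw [← hw] at hcon
  have hΛr : 0 < Λ * r := by positivity
  have hK : closedBall w (2 * Λ * r) ⊆ ball (0 : V n) 1 := by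
    intro y hy
    rw [mem_closedBall, dist_eq_norm] at hy
    rw [mem_ball_zero_iff]
    have h1 := norm_add_le (y - w) w
    rw [sub_add_cancel] at h1
    linarith
  have hKne : (closedBall w (2 * Λ * r)).Nonempty := ⟨w, mem_closedBall_self (by linarith)⟩
  obtain ⟨y₀, hy₀, hmax⟩ := (isCompact_closedBall w (2 * Λ * r)).exists_isMaxOn hKne
    (hA.d2.continuousOn.mono hK).norm
  obtain ⟨M, hM⟩ : ∃ M : ℝ, M = ‖τ y₀‖ := ⟨_, rfl⟩
  have hM1 : M < 1 := by rw [hM]; exact mem_ball_zero_iff.1 (hA.m2 (hK hy₀))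
  have hM0 : 0 ≤ M := by rw [hM]; exact norm_nonneg _
  obtain ⟨δ, hδ⟩ : ∃ δ : ℝ, δ = min r ((1 - M) / 2) := ⟨_, rfl⟩
  have hδ0 : 0 < δ := by rw [hδ]; exact lt_min hr (by linarith)
  have hδr : δ ≤ r := by rw [hδ]; exact min_le_left _ _
  have hδM : δ ≤ (1 - M) / 2 := by rw [hδ]; exact min_le_right _ _
  have hnorm : ∀ s : ℝ, 0 < s → s ≤ 1 → ‖(1 - s : ℝ) • q‖ = 1 - s := by
    intro s hs hs1
    rw [norm_smul, hq, mul_one, Real.norm_of_nonneg (by linarith)]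
  have hz : (1 - δ : ℝ) • q ∈ ball (0 : V n) 1 := by
    rw [mem_ball_zero_iff, hnorm δ hδ0 (by linarith)]
    linarith
  have hz' : (1 - r : ℝ) • q ∈ ball (0 : V n) 1 := by
    rw [mem_ball_zero_iff, hnorm r hr hr1.le]
    linarith
  have h1 := hσ _ hz _ hz'
  have h2 : ‖(1 - δ : ℝ) • q - (1 - r : ℝ) • q‖ ≤ r := by
    rw [← sub_smul, norm_smul, hq, mul_one, Real.norm_eq_abs, abs_le]
    constructor <;> linarith
  have h3 : σ ((1 - δ : ℝ) • q) ∈ closedBall w (2 * Λ * r) := by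
    rw [mem_closedBall, dist_eq_norm, hw]
    have h4 : Λ * ‖(1 - δ : ℝ) • q - (1 - r : ℝ) • q‖ ≤ Λ * r :=
      mul_le_mul_of_nonneg_left h2 (by linarith)
    linarith
  have h4 : ‖τ (σ ((1 - δ : ℝ) • q))‖ ≤ ‖τ y₀‖ := hmax h3
  rw [hA.i1 _ hz, hnorm δ hδ0 (by linarith), ← hM] at h4
  linarith

/-- **Transport of local solvability.** -/
theorem transfer {I ι : Type} [Fintype ι] {F : I → ι → V n → ℂ} {q : V n} (hq : ‖q‖ = 1)
    {σ τ : I → V n → V n} (hA : ∀ i, Aut (σ i) (τ i)) {Λ : ℝ} (hΛ : 1 ≤ Λ)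
    (hσ : ∀ i, ∀ z ∈ ball (0 : V n) 1, ∀ w ∈ ball (0 : V n) 1, ‖σ i z - σ i w‖ ≤ Λ * ‖z - w‖)
    (hτ : ∀ i, ∀ z ∈ ball (0 : V n) 1, ∀ w ∈ ball (0 : V n) 1, ‖τ i z - τ i w‖ ≤ Λ * ‖z - w‖)
    {ρ : ℝ} (hρ : 0 < ρ)
    (h : ∀ c : V n, ‖c‖ = 1 → ∀ r : ℝ, 0 < r →
      SolvL (fun (x : {i : I // MapsTo (τ i) (ball 0 1 ∩ ball c r) (ball 0 1 ∩ ball q ρ)}) j z =>
        F x.1 j (τ x.1 z)) c) : SolvL F q := by
  classical
  have hΛ0 : 0 < Λ := by linarith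
  obtain ⟨ρ', hρ'⟩ : ∃ ρ' : ℝ, ρ' = min ρ 1 := ⟨_, rfl⟩
  have hρ'0 : 0 < ρ' := by rw [hρ']; exact lt_min hρ one_pos
  have hρ'1 : ρ' ≤ 1 := by rw [hρ']; exact min_le_right _ _
  have hρ'ρ : ρ' ≤ ρ := by rw [hρ']; exact min_le_left _ _
  obtain ⟨η, hη⟩ : ∃ η : ℝ, η = ρ' / (4 * Λ) := ⟨_, rfl⟩
  have hη0 : 0 < η := by rw [hη]; positivity
  have hηΛ : Λ * η = ρ' / 4 := by rw [hη]; field_simp
  obtain ⟨r₀, hr₀⟩ : ∃ r₀ : ℝ, r₀ = η / (4 * Λ) := ⟨_, rfl⟩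
  have hr₀0 : 0 < r₀ := by rw [hr₀]; positivity
  have hr₀Λ : Λ * r₀ = η / 4 := by rw [hr₀]; field_simp
  have hη1 : η ≤ ρ' / 4 := by nlinarith
  have hr₀1 : r₀ ≤ η / 4 := by nlinarith
  have h' : ∀ c : V n, ‖c‖ = 1 → ∃ C r : ℝ, 0 < r ∧ ∀ i : I,
      MapsTo (τ i) (ball 0 1 ∩ ball c η) (ball 0 1 ∩ ball q ρ) → ∃ g : ι → V n → ℂ,
        (∀ j, DifferentiableOn ℂ (g j) (ball 0 1 ∩ ball c r)) ∧
        (∀ j, ∀ z ∈ ball (0 : V n) 1 ∩ ball c r, ‖g j z‖ ≤ C) ∧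
        ∀ z ∈ ball (0 : V n) 1 ∩ ball c r, ∑ j, F i j (τ i z) * g j z = 1 := by
    intro c hc
    obtain ⟨C, r, hr, h1⟩ := h c hc η hη0
    exact ⟨C, r, hr, fun i hi => h1 ⟨i, hi⟩⟩
  choose! C r hr hg using h'
  obtain ⟨t, hts, htc⟩ := (isCompact_sphere (0 : V n) 1).elim_nhds_subcover
    (fun c => ball c (min (r c) η / 4)) (fun c hc => ball_mem_nhds c (by
      have h1 := hr c (mem_sphere_zero_iff_norm.1 hc)
      have h2 : 0 < min (r c) η := lt_min h1 hη0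
      linarith))
  obtain ⟨m, hm, hml⟩ := exists_low t (fun c => min (r c) η / 4) (fun c hc => by
      have h1 := hr c (mem_sphere_zero_iff_norm.1 (hts c hc))
      have h2 : 0 < min (r c) η := lt_min h1 hη0
      linarith)
  obtain ⟨r₁, hr₁⟩ : ∃ r₁ : ℝ, r₁ = min (m / (5 * Λ)) (min (r₀ / 4) (1 / 8)) := ⟨_, rfl⟩
  have hr₁0 : 0 < r₁ := by rw [hr₁]; positivity
  have hr₁a : r₁ ≤ m / (5 * Λ) := by rw [hr₁]; exact min_le_left _ _
  have hr₁b : r₁ ≤ r₀ / 4 := by rw [hr₁]; exact (min_le_right _ _).trans (min_le_left _ _)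
  have hr₁c : r₁ ≤ 1 / 8 := by rw [hr₁]; exact (min_le_right _ _).trans (min_le_right _ _)
  have hr₁m : 5 * (Λ * r₁) ≤ m := by
    have h1 := mul_le_mul_of_nonneg_left hr₁a (by positivity : 0 ≤ 5 * Λ)
    have h2 : 5 * Λ * (m / (5 * Λ)) = m := by field_simp
    linarith
  have hr₁r : 4 * (Λ * r₁) ≤ Λ * r₀ := by nlinarith
  have hCt : ∀ c ∈ t, C c ≤ ∑ c ∈ t, |C c| := fun c hc =>
    (le_abs_self _).trans (Finset.single_le_sum (f := fun c => |C c|)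
      (fun _ _ => abs_nonneg _) hc)
  refine ⟨∑ c ∈ t, |C c|, r₁, hr₁0, fun i => ?_⟩
  obtain ⟨w, hw⟩ : ∃ w : V n, w = σ i ((1 - r₁ : ℝ) • q) := ⟨_, rfl⟩
  have hnorm : ∀ s : ℝ, 0 < s → s ≤ 1 → ‖(1 - s : ℝ) • q‖ = 1 - s := by
    intro s hs hs1
    rw [norm_smul, hq, mul_one, Real.norm_of_nonneg (by linarith)]
  have hqd : ∀ s : ℝ, 0 < s → ‖(1 - s : ℝ) • q - q‖ = s := by
    intro s hs
    have h1 : (1 - s : ℝ) • q - q = (-s : ℝ) • q := by module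
    rw [h1, norm_smul, hq, mul_one, Real.norm_eq_abs, abs_neg, abs_of_pos hs]
  have hzr₁ : (1 - r₁ : ℝ) • q ∈ ball (0 : V n) 1 := by
    rw [mem_ball_zero_iff, hnorm r₁ hr₁0 (by linarith)]
    linarith
  have hzr₀ : (1 - r₀ : ℝ) • q ∈ ball (0 : V n) 1 := by
    rw [mem_ball_zero_iff, hnorm r₀ hr₀0 (by linarith)]
    linarith
  have hwB : ‖w‖ < 1 := by rw [hw]; exact mem_ball_zero_iff.1 ((hA i).m1 hzr₁)
  have hwn : 1 - ‖w‖ ≤ 3 * Λ * r₁ := by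
    rw [hw]
    exact near_bd hq (hA i) hΛ (hσ i) hr₁0 (by linarith)
  have hw0 : 0 < ‖w‖ := by
    have h1 : Λ * r₁ ≤ Λ * r₀ / 4 := by linarith
    nlinarith
  have hwc : ((‖w‖ : ℝ)) ≠ 0 := hw0.ne'
  obtain ⟨c', hc'⟩ : ∃ c' : V n, c' = (‖w‖)⁻¹ • w := ⟨_, rfl⟩
  have hc'1 : ‖c'‖ = 1 := by
    rw [hc', norm_smul, norm_inv, norm_norm]
    exact inv_mul_cancel₀ hwc
  have hwc' : ‖w - c'‖ ≤ 3 * Λ * r₁ := by
    have h1 : w - c' = (‖w‖ - 1) • c' := by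
      rw [hc', smul_smul, sub_mul, mul_inv_cancel₀ hwc, one_mul, sub_smul, one_smul]
    rw [h1, norm_smul, hc'1, mul_one, Real.norm_eq_abs, abs_sub_comm, abs_of_pos (by linarith)]
    exact hwn
  obtain ⟨c, hct, hcc⟩ : ∃ c ∈ t, c' ∈ ball c (min (r c) η / 4) := by
    have h1 := htc (mem_sphere_zero_iff_norm.2 hc'1)
    simpa using h1
  rw [mem_ball, dist_eq_norm] at hcc
  have hc1 := mem_sphere_zero_iff_norm.1 (hts c hct)
  have hrc : min (r c) η ≤ r c := min_le_left _ _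
  have hrη : min (r c) η ≤ η := min_le_right _ _
  have hmc : m ≤ min (r c) η / 4 := hml c hct
  have hmin : 0 < min (r c) η := lt_min (hr c hc1) hη0
  have hmaps : MapsTo (τ i) (ball 0 1 ∩ ball c η) (ball 0 1 ∩ ball q ρ) := by
    rintro y ⟨hy, hyc⟩
    refine ⟨(hA i).m2 hy, ?_⟩
    rw [mem_ball, dist_eq_norm] at hyc ⊢
    have h1 := hτ i y hy _ ((hA i).m1 hzr₀)
    rw [(hA i).i1 _ hzr₀] at h1
    have h2 := hσ i _ hzr₁ _ hzr₀
    rw [← hw] at h2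
    have h3 : ‖(1 - r₁ : ℝ) • q - (1 - r₀ : ℝ) • q‖ ≤ r₀ := by
      rw [← sub_smul, norm_smul, hq, mul_one, Real.norm_eq_abs, abs_le]
      constructor <;> linarith
    have h4 : Λ * ‖(1 - r₁ : ℝ) • q - (1 - r₀ : ℝ) • q‖ ≤ Λ * r₀ :=
      mul_le_mul_of_nonneg_left h3 hΛ0.le
    have h5 : ‖y - σ i ((1 - r₀ : ℝ) • q)‖ ≤ ‖y - c‖ + ‖c' - c‖ + ‖w - c'‖ +
        ‖w - σ i ((1 - r₀ : ℝ) • q)‖ := by
      have e : y - σ i ((1 - r₀ : ℝ) • q) = (y - c) - (c' - c) - (w - c') +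
          (w - σ i ((1 - r₀ : ℝ) • q)) := by abel
      rw [e]
      refine (norm_add_le _ _).trans (add_le_add ?_ le_rfl)
      refine (norm_sub_le _ _).trans (add_le_add ?_ le_rfl)
      exact norm_sub_le _ _
    have h6 : ‖y - σ i ((1 - r₀ : ℝ) • q)‖ ≤ 2 * η := by
      linarith
    have h7 := mul_le_mul_of_nonneg_left h6 hΛ0.le
    have h8 := hqd r₀ hr₀0
    have h9 := norm_add_le (τ i y - (1 - r₀ : ℝ) • q) ((1 - r₀ : ℝ) • q - q)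
    rw [sub_add_sub_cancel] at h9
    linarith
  obtain ⟨g, h1, h2, h3⟩ := hg c hc1 i hmaps
  have hm2 : MapsTo (σ i) (ball 0 1 ∩ ball q r₁) (ball 0 1 ∩ ball c (r c)) := by
    rintro z ⟨hz, hzq⟩
    refine ⟨(hA i).m1 hz, ?_⟩
    rw [mem_ball, dist_eq_norm] at hzq ⊢
    have h4 := hσ i z hz _ hzr₁
    rw [← hw] at h4
    have h5 : ‖z - (1 - r₁ : ℝ) • q‖ ≤ 2 * r₁ := by
      have h6 := norm_sub_le (z - q) ((1 - r₁ : ℝ) • q - q)
      rw [sub_sub_sub_cancel_right, hqd r₁ hr₁0] at h6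
      linarith
    have h6 : Λ * ‖z - (1 - r₁ : ℝ) • q‖ ≤ Λ * (2 * r₁) := mul_le_mul_of_nonneg_left h5 hΛ0.le
    have h7 : ‖σ i z - c‖ ≤ ‖σ i z - w‖ + ‖w - c'‖ + ‖c' - c‖ := by
      have e : σ i z - c = (σ i z - w) + (w - c') + (c' - c) := by abel
      rw [e]
      exact norm_add₃_le
    linarith
  refine ⟨fun j z => g j (σ i z), fun j => (h1 j).comp ((hA i).d1.mono inter_subset_left) hm2,
    fun j z hz => (h2 j _ (hm2 hz)).trans (hCt c hct), fun z hz => ?_⟩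
  have h4 := h3 _ (hm2 hz)
  simp only [(hA i).i1 z hz.1] at h4
  exact h4

end Pool.Agent.V7H86.WP
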