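import Mathlib
import Pool.Agent.V7H86.WP.Tr

/-!
Functions of automorphisms: classes of data, the invisible case, perturbation.
-/

set_option autoImplicit false

open Metric Set Filter Topology Complex

namespace Pool.Agent.V7H86.WP

open Pool.Agent.TH310.Cor (V HB Aut Solv SolvL aut_mv Nr one_sub_mv one_sub_inner)
open Pool.Agent.W732.Cor (mv S_mv S_ball t_mv t_ball)

variable {n : ℕ}

/-- the family `(f, G)` -/
def Fm {I L K : Type} (f : I → L → V n → ℂ) (G : I → K → V n → ℂ) : I → L ⊕ K → V n → ℂ :=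
  fun i o => Sum.elim (f i) (G i) o

/-- near `q` the functions `G` have solutions where the functions `f` are small -/
def LocH {I L K : Type} [Fintype K] (q : V n) (ρ a Q : ℝ) (f : I → L → V n → ℂ)
    (G : I → K → V n → ℂ) : Prop :=
  ∀ i, ∃ g : K → V n → ℂ,
    (∀ k, DifferentiableOn ℂ (g k) {z | z ∈ ball (0 : V n) 1 ∩ ball q ρ ∧ ∀ l, ‖f i l z‖ < a}) ∧
    (∀ k, ∀ z ∈ {z | z ∈ ball (0 : V n) 1 ∩ ball q ρ ∧ ∀ l, ‖f i l z‖ < a}, ‖g k z‖ ≤ Q) ∧
    ∀ z ∈ {z | z ∈ ball (0 : V n) 1 ∩ ball q ρ ∧ ∀ l, ‖f i l z‖ < a}, ∑ k, G i k z * g k z = 1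

/-- functions of `m` automorphisms -/
def Cls (p : V n) (ε : ℝ) (m : ℕ) {I L : Type} (f : I → L → V n → ℂ) : Prop :=
  ∃ (ψ φ : I → Fin m → V n → V n) (H : I → L → (Fin m → V n) → ℂ),
    (∀ i j, Aut (ψ i j) (φ i j)) ∧
    (∀ i l, DifferentiableOn ℂ (H i l) {w | ∀ j, w j ∈ EE p ε}) ∧
    (∀ i l, ∀ w ∈ {w : Fin m → V n | ∀ j, w j ∈ EE p ε}, ‖H i l w‖ ≤ 1) ∧
    ∀ i l, ∀ z ∈ ball (0 : V n) 1, f i l z = H i l (fun j => ψ i j z)

/-- functions of the maps `ψ₀` and of `m` automorphisms -/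
def ClsH (p : V n) (ε : ℝ) (m : ℕ) {I L : Type} (ψ₀ : I → V n → V n) (f : I → L → V n → ℂ) :
    Prop :=
  ∃ (ψ φ : I → Fin m → V n → V n) (H : I → L → V n × (Fin m → V n) → ℂ),
    (∀ i j, Aut (ψ i j) (φ i j)) ∧
    (∀ i l, DifferentiableOn ℂ (H i l) {w | w.1 ∈ EE p ε ∧ ∀ j, w.2 j ∈ EE p ε}) ∧
    (∀ i l, ∀ w ∈ {w : V n × (Fin m → V n) | w.1 ∈ EE p ε ∧ ∀ j, w.2 j ∈ EE p ε},
      ‖H i l w‖ ≤ 1) ∧
    ∀ i l, ∀ z ∈ ball (0 : V n) 1, f i l z = H i l (ψ₀ i z, fun j => ψ i j z)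

theorem LocH.comp {I L K : Type} [Fintype K] {q : V n} {ρ a Q : ℝ} {f : I → L → V n → ℂ}
    {G : I → K → V n → ℂ} (h : LocH q ρ a Q f G) {I' : Type} (r : I' → I)
    {τ : I' → V n → V n} (hd : ∀ x, DifferentiableOn ℂ (τ x) (ball 0 1)) {c : V n} {ρ' : ℝ}
    (hm : ∀ x, MapsTo (τ x) (ball 0 1 ∩ ball c ρ') (ball 0 1 ∩ ball q ρ)) :
    LocH c ρ' a Q (fun x l z => f (r x) l (τ x z)) (fun x k z => G (r x) k (τ x z)) := by
  intro x
  obtain ⟨g, h1, h2, h3⟩ := h (r x)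
  have hmm : MapsTo (τ x) {z | z ∈ ball (0 : V n) 1 ∩ ball c ρ' ∧ ∀ l, ‖f (r x) l (τ x z)‖ < a}
      {z | z ∈ ball (0 : V n) 1 ∩ ball q ρ ∧ ∀ l, ‖f (r x) l z‖ < a} := fun z hz =>
    ⟨hm x hz.1, hz.2⟩
  exact ⟨fun k z => g k (τ x z), fun k => (h1 k).comp ((hd x).mono fun z hz => hz.1.1) hmm,
    fun k z hz => h2 k _ (hmm hz), fun z hz => h3 _ (hmm hz)⟩

theorem ClsH.comp {p : V n} {ε : ℝ} {m : ℕ} {I L : Type} {ψ₀ : I → V n → V n}
    {f : I → L → V n → ℂ} (h : ClsH p ε m ψ₀ f) {I' : Type} (r : I' → I)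
    {τ σ : I' → V n → V n} (hA : ∀ x, Aut (τ x) (σ x)) :
    ClsH p ε m (fun x z => ψ₀ (r x) (τ x z)) (fun x l z => f (r x) l (τ x z)) := by
  obtain ⟨ψ, φ, H, h1, h2, h3, h4⟩ := h
  exact ⟨fun x j z => ψ (r x) j (τ x z), fun x j z => σ x (φ (r x) j z), fun x => H (r x),
    fun x j => (h1 (r x) j).comp (hA x), fun x => h2 (r x), fun x => h3 (r x),
    fun x l z hz => h4 (r x) l _ ((hA x).m1 hz)⟩

theorem Cls.comp {p : V n} {ε : ℝ} {m : ℕ} {I L : Type}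
    {f : I → L → V n → ℂ} (h : Cls p ε m f) {I' : Type} (r : I' → I)
    {τ σ : I' → V n → V n} (hA : ∀ x, Aut (τ x) (σ x)) :
    Cls p ε m (fun x l z => f (r x) l (τ x z)) := by
  obtain ⟨ψ, φ, H, h1, h2, h3, h4⟩ := h
  exact ⟨fun x j z => ψ (r x) j (τ x z), fun x j z => σ x (φ (r x) j z), fun x => H (r x),
    fun x j => (h1 (r x) j).comp (hA x), fun x => h2 (r x), fun x => h3 (r x),
    fun x l z hz => h4 (r x) l _ ((hA x).m1 hz)⟩

theorem ClsH.head {p : V n} {ε : ℝ} {m : ℕ} {I L : Type} {ψ₀ ψ₁ : I → V n → V n}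
    {f : I → L → V n → ℂ} (h : ClsH p ε m ψ₀ f) {A : I → V n → V n}
    (hAd : ∀ i, DifferentiableOn ℂ (A i) (EE p ε)) (hAm : ∀ i, MapsTo (A i) (EE p ε) (EE p ε))
    (hA : ∀ i, ∀ z ∈ ball (0 : V n) 1, ψ₀ i z = A i (ψ₁ i z)) : ClsH p ε m ψ₁ f := by
  obtain ⟨ψ, φ, H, h1, h2, h3, h4⟩ := h
  have hm : ∀ i, MapsTo (fun w : V n × (Fin m → V n) => (A i w.1, w.2))
      {w | w.1 ∈ EE p ε ∧ ∀ j, w.2 j ∈ EE p ε} {w | w.1 ∈ EE p ε ∧ ∀ j, w.2 j ∈ EE p ε} :=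
    fun i w hw => ⟨hAm i hw.1, hw.2⟩
  refine ⟨ψ, φ, fun i l w => H i l (A i w.1, w.2), h1, fun i l => (h2 i l).comp ?_ (hm i),
    fun i l w hw => h3 i l _ (hm i hw), fun i l z hz => ?_⟩
  · refine DifferentiableOn.prodMk ?_ differentiableOn_snd
    exact (hAd i).comp differentiableOn_fst fun w hw => hw.1
  · rw [h4 i l z hz, hA i z hz]

theorem Cls.hb {p : V n} (hp : ‖p‖ = 1) {ε : ℝ} (hε : 0 ≤ ε) {m : ℕ} {I L : Type}
    {f : I → L → V n → ℂ} (h : Cls p ε m f) (i : I) (l : L) : HB (f i l) := by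
  obtain ⟨ψ, φ, H, h1, h2, h3, h4⟩ := h
  have hm : ∀ z ∈ ball (0 : V n) 1, (fun j => ψ i j z) ∈ {w : Fin m → V n | ∀ j, w j ∈ EE p ε} :=
    fun z hz j => ball_EE hp hε ((h1 i j).m1 hz)
  refine ⟨?_, fun z hz => ?_⟩
  · have h5 : DifferentiableOn ℂ (fun z => H i l (fun j => ψ i j z)) (ball 0 1) :=
      (h2 i l).comp (differentiableOn_pi.2 fun j => (h1 i j).d1) hm
    exact h5.congr (h4 i l)
  · rw [h4 i l z hz]
    exact h3 i l _ (hm z hz)

/-- splitting off one automorphism -/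
theorem Cls.toH {p : V n} {ε : ℝ} {m : ℕ} {I L : Type}
    {f : I → L → V n → ℂ} (h : Cls p ε (m + 1) f) :
    ∃ ψ₀ φ₀ : I → V n → V n, (∀ i, Aut (ψ₀ i) (φ₀ i)) ∧ ClsH p ε m ψ₀ f := by
  obtain ⟨ψ, φ, H, h1, h2, h3, h4⟩ := h
  refine ⟨fun i => ψ i 0, fun i => φ i 0, fun i => h1 i 0, fun i j => ψ i j.succ,
    fun i j => φ i j.succ, fun i l w => H i l (Fin.cons w.1 w.2), fun i j => h1 i j.succ,
    fun i l => ?_, fun i l w hw => ?_, fun i l z hz => ?_⟩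
  · refine (h2 i l).comp ?_ ?_
    · refine differentiableOn_pi.2 fun j => ?_
      refine Fin.cases ?_ (fun j => ?_) j
      · simp only [Fin.cons_zero]
        exact differentiableOn_fst
      · simp only [Fin.cons_succ]
        have h5 : Differentiable ℂ (fun w : V n × (Fin m → V n) => w.2 j) :=
          ((ContinuousLinearMap.proj (R := ℂ) (φ := fun _ : Fin m => V n) j).comp
            (ContinuousLinearMap.snd ℂ (V n) (Fin m → V n))).differentiable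
        exact h5.differentiableOn
    · intro w hw j
      refine Fin.cases ?_ (fun j => ?_) j
      · simp only [Fin.cons_zero]
        exact hw.1
      · simp only [Fin.cons_succ]
        exact hw.2 j
  · refine h3 i l _ fun j => ?_
    refine Fin.cases ?_ (fun j => ?_) j
    · simp only [Fin.cons_zero]
      exact hw.1
    · simp only [Fin.cons_succ]
      exact hw.2 j
  · rw [h4 i l z hz]
    congr 1
    funext j
    refine Fin.cases ?_ (fun j => ?_) j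
    · simp only [Fin.cons_zero]
    · simp only [Fin.cons_succ]

/-- perturbation -/
theorem perturb {I ι : Type} [Fintype ι] {F F' : I → ι → V n → ℂ} {q : V n}
    (hd : ∀ i j, DifferentiableOn ℂ (F i j) (ball 0 1)) (h : SolvL F' q)
    (hclose : ∀ η : ℝ, 0 < η → ∃ r : ℝ, 0 < r ∧ ∀ i j, ∀ z ∈ ball (0 : V n) 1 ∩ ball q r,
      ‖F i j z - F' i j z‖ ≤ η) : SolvL F q := by
  classical
  obtain ⟨C, ρ, hρ, hg⟩ := h
  obtain ⟨C', hC'⟩ : ∃ C' : ℝ, C' = max C 1 := ⟨_, rfl⟩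
  have hC'1 : 1 ≤ C' := by rw [hC']; exact le_max_right _ _
  have hCC' : C ≤ C' := by rw [hC']; exact le_max_left _ _
  obtain ⟨M, hM⟩ : ∃ M : ℝ, M = Fintype.card ι := ⟨_, rfl⟩
  have hM0 : 0 ≤ M := by rw [hM]; exact Nat.cast_nonneg _
  obtain ⟨η, hη⟩ : ∃ η : ℝ, η = 1 / (2 * (M + 1) * C') := ⟨_, rfl⟩
  have hη0 : 0 < η := by rw [hη]; positivity
  have hMη : M * (η * C') ≤ 1 / 2 := by
    have h1 : M * (η * C') = M / (M + 1) / 2 := by
      rw [hη]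
      field_simp
    have h2 : M / (M + 1) ≤ 1 := by
      rw [div_le_one (by positivity)]
      linarith
    rw [h1]
    linarith
  obtain ⟨r, hr, hcl⟩ := hclose η hη0
  have hs1 : ball (0 : V n) 1 ∩ ball q (min ρ r) ⊆ ball 0 1 ∩ ball q ρ :=
    inter_subset_inter_right _ (ball_subset_ball (min_le_left _ _))
  have hs2 : ball (0 : V n) 1 ∩ ball q (min ρ r) ⊆ ball 0 1 ∩ ball q r :=
    inter_subset_inter_right _ (ball_subset_ball (min_le_right _ _))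
  refine ⟨2 * C', min ρ r, lt_min hρ hr, fun i => ?_⟩
  obtain ⟨g, h1, h2, h3⟩ := hg i
  have hS : ∀ z ∈ ball (0 : V n) 1 ∩ ball q (min ρ r), ‖∑ j, F i j z * g j z - 1‖ ≤ 1 / 2 := by
    intro z hz
    rw [← h3 z (hs1 hz), ← Finset.sum_sub_distrib]
    refine (norm_sum_le _ _).trans ?_
    have h4 : ∀ j ∈ (Finset.univ : Finset ι), ‖F i j z * g j z - F' i j z * g j z‖ ≤ η * C' := by
      intro j _
      rw [← sub_mul, norm_mul]
      exact mul_le_mul (hcl i j z (hs2 hz)) ((h2 j z (hs1 hz)).trans hCC') (norm_nonneg _) hη0.le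
    refine (Finset.sum_le_sum h4).trans ?_
    rw [Finset.sum_const, Finset.card_univ, nsmul_eq_mul, ← hM]
    exact hMη
  have hlow : ∀ z ∈ ball (0 : V n) 1 ∩ ball q (min ρ r), 1 / 2 ≤ ‖∑ j, F i j z * g j z‖ := by
    intro z hz
    have h4 := hS z hz
    have h5 := norm_sub_norm_le (1 : ℂ) (1 - ∑ j, F i j z * g j z)
    rw [sub_sub_cancel, norm_one, norm_sub_rev] at h5
    linarith
  have hne : ∀ z ∈ ball (0 : V n) 1 ∩ ball q (min ρ r), ∑ j, F i j z * g j z ≠ 0 := by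
    intro z hz h4
    have h5 := hlow z hz
    rw [h4, norm_zero] at h5
    norm_num at h5
  refine ⟨fun j z => g j z * (∑ j, F i j z * g j z)⁻¹, fun j => ?_, fun j z hz => ?_,
    fun z hz => ?_⟩
  · refine ((h1 j).mono hs1).mul (DifferentiableOn.fun_inv ?_ hne)
    exact DifferentiableOn.fun_sum fun j _ => ((hd i j).mono inter_subset_left).mul
      ((h1 j).mono hs1)
  · rw [norm_mul, norm_inv]
    have h4 := hlow z hz
    have h5 : ‖∑ j, F i j z * g j z‖⁻¹ ≤ 2 := by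
      rw [inv_le_comm₀ (by linarith) (by norm_num)]
      linarith
    calc ‖g j z‖ * ‖∑ j, F i j z * g j z‖⁻¹ ≤ C' * 2 := by
          gcongr
          exact (h2 j z (hs1 hz)).trans hCC'
      _ = 2 * C' := by ring
  · have h6 : ∑ j, F i j z * (g j z * (∑ j, F i j z * g j z)⁻¹) =
        (∑ j, F i j z * g j z) * (∑ j, F i j z * g j z)⁻¹ := by
      rw [Finset.sum_mul]
      exact Finset.sum_congr rfl fun j _ => by ring
    rw [h6]
    exact mul_inv_cancel₀ (hne z hz)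

/-- the statement of the induction -/
def PP (p : V n) (ε : ℝ) (m : ℕ) : Prop :=
  ∀ (I L K : Type) [Fintype L] [Fintype K] (f : I → L → V n → ℂ) (G : I → K → V n → ℂ) (q : V n)
    (ρ a Q : ℝ), ‖q‖ = 1 → 0 < ρ → 0 < a → 0 < Q → Cls p ε m f → (∀ i k, HB (G i k)) →
    LocH q ρ a Q f G → SolvL (Fm f G) q

theorem PP_zero (p : V n) (ε : ℝ) : PP p ε 0 := by
  classical
  intro I L K _ _ f G q ρ a Q hq hρ ha hQ hcls hG hloc
  obtain ⟨ψ, φ, H, h1, h2, h3, h4⟩ := hcls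
  have hf : ∀ i l, ∀ z ∈ ball (0 : V n) 1, f i l z = H i l default := by
    intro i l z hz
    rw [h4 i l z hz]
    congr 1
    exact Subsingleton.elim _ _
  refine ⟨max (1 / a) Q, ρ, hρ, fun i => ?_⟩
  by_cases hex : ∃ l, a ≤ ‖H i l default‖
  · obtain ⟨l, hl⟩ := hex
    have hne : H i l default ≠ 0 := norm_pos_iff.1 (ha.trans_le hl)
    refine ⟨fun o _ => if o = Sum.inl l then (H i l default)⁻¹ else 0,
      fun o => differentiableOn_const _, fun o z _ => ?_, fun z hz => ?_⟩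
    · beta_reduce
      by_cases ho : o = Sum.inl l
      · rw [if_pos ho, norm_inv, ← one_div]
        exact (one_div_le_one_div_of_le ha hl).trans (le_max_left _ _)
      · rw [if_neg ho, norm_zero]
        exact le_max_of_le_left (by positivity)
    · simp only [mul_ite, mul_zero]
      rw [Finset.sum_ite_eq' Finset.univ (Sum.inl l), if_pos (Finset.mem_univ _)]
      change f i l z * _ = 1
      rw [hf i l z hz.1]
      exact mul_inv_cancel₀ hne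
  · push Not at hex
    obtain ⟨g, h5, h6, h7⟩ := hloc i
    have hsub : ball (0 : V n) 1 ∩ ball q ρ ⊆
        {z | z ∈ ball (0 : V n) 1 ∩ ball q ρ ∧ ∀ l, ‖f i l z‖ < a} := by
      intro z hz
      refine ⟨hz, fun l => ?_⟩
      rw [hf i l z hz.1]
      exact hex l
    refine ⟨fun o => Sum.elim (fun _ _ => 0) g o, ?_, ?_, ?_⟩
    · rintro (l | k)
      · exact differentiableOn_const _
      · exact (h5 k).mono hsub
    · rintro (l | k) z hz
      · change ‖(0 : ℂ)‖ ≤ _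
        rw [norm_zero]
        exact le_max_of_le_left (by positivity)
      · exact (h6 k z (hsub hz)).trans (le_max_right _ _)
    · intro z hz
      rw [Fintype.sum_sum_type]
      simp only [Fm, Sum.elim_inl, Sum.elim_inr, mul_zero, Finset.sum_const_zero, zero_add]
      exact h7 z (hsub hz)

/-- **The invisible case.** -/
theorem inv {p : V n} (hp : ‖p‖ = 1) {ε : ℝ} (hε0 : 0 < ε) (hε1 : ε ≤ 1) {m : ℕ}
    (hP : PP p ε m) {I L K : Type} [Fintype L] [Fintype K] {f : I → L → V n → ℂ}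
    {G : I → K → V n → ℂ} {q : V n} {ρ a Q : ℝ} (hq : ‖q‖ = 1) (hρ : 0 < ρ) (ha : 0 < a)
    (hQ : 0 < Q) {ψ₀ φ₀ : I → V n → V n} (hψ₀ : ∀ i, Aut (ψ₀ i) (φ₀ i)) (hcls : ClsH p ε m ψ₀ f)
    (hG : ∀ i k, HB (G i k)) (hloc : LocH q ρ a Q f G) {κ : ℝ} (hκ0 : 0 < κ) (hκ1 : κ ≤ 1)
    (c : I → V n) (hc : ∀ i, ‖c i‖ ≤ 1) (hcp : ∀ i, ‖(inner ℂ p (c i) : ℂ)‖ ≤ 1 - κ)
    (heq : ∀ η : ℝ, 0 < η → ∃ r : ℝ, 0 < r ∧ ∀ i, ∀ z ∈ ball (0 : V n) 1 ∩ ball q r,
      ‖ψ₀ i z - c i‖ ≤ η) : SolvL (Fm f G) q := by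
  obtain ⟨ψ, φ, H, h1, h2, h3, h4⟩ := hcls
  obtain ⟨r₀, hr₀⟩ : ∃ r₀ : ℝ, r₀ = ε * κ / 4 := ⟨_, rfl⟩
  have hr₀0 : 0 < r₀ := by rw [hr₀]; positivity
  have hεκ : ε * κ ≤ 1 := by nlinarith
  have hr₀1 : r₀ ≤ 1 := by rw [hr₀]; linarith
  have hball : ∀ i, ball (c i) r₀ ⊆ EE p ε := by
    intro i y hy
    rw [mem_ball, dist_eq_norm] at hy
    have h5 : ‖y‖ ≤ 1 + r₀ := by
      have h6 := norm_add_le (y - c i) (c i)
      rw [sub_add_cancel] at h6
      linarith [hc i]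
    have h6 : ‖(inner ℂ p y : ℂ)‖ ≤ (1 - κ) + r₀ := by
      have h7 := norm_add_le (inner ℂ p (y - c i) : ℂ) (inner ℂ p (c i))
      rw [← inner_add_right, sub_add_cancel] at h7
      linarith [inner_le hp (y - c i), hcp i]
    have h7 : ‖y‖ ^ 2 ≤ (1 + r₀) ^ 2 := pow_le_pow_left₀ (norm_nonneg _) h5 2
    have h8 : ‖(inner ℂ p y : ℂ)‖ ^ 2 ≤ ((1 - κ) + r₀) ^ 2 :=
      pow_le_pow_left₀ (norm_nonneg _) h6 2
    have h9 : (1 + r₀) ^ 2 ≤ 1 + 3 * r₀ := by nlinarith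
    have h10 : ((1 - κ) + r₀) ^ 2 ≤ (1 - κ) + 3 * r₀ := by nlinarith
    change (1 - ε) * ‖y‖ ^ 2 + ε * ‖(inner ℂ p y : ℂ)‖ ^ 2 < 1
    have h11 := mul_le_mul_of_nonneg_left (h7.trans h9) (sub_nonneg.2 hε1)
    have h12 := mul_le_mul_of_nonneg_left (h8.trans h10) hε0.le
    have h13 : ε * κ = 4 * r₀ := by rw [hr₀]; ring
    nlinarith
  have hcE : ∀ i, c i ∈ EE p ε := fun i => hball i (mem_ball_self hr₀0)
  have hψE : ∀ i, ∀ z ∈ ball (0 : V n) 1, ∀ j, ψ i j z ∈ EE p ε := fun i z hz j =>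
    ball_EE hp hε0.le ((h1 i j).m1 hz)
  obtain ⟨f', hf'⟩ : ∃ f' : I → L → V n → ℂ, f' = fun i l z => H i l (c i, fun j => ψ i j z) :=
    ⟨_, rfl⟩
  have hf'a : ∀ i l z, f' i l z = H i l (c i, fun j => ψ i j z) := fun i l z => by rw [hf']
  have hclose : ∀ η : ℝ, 0 < η → ∃ r : ℝ, 0 < r ∧ ∀ i l, ∀ z ∈ ball (0 : V n) 1 ∩ ball q r,
      ‖f i l z - f' i l z‖ ≤ η := by
    intro η hη
    obtain ⟨r, hr, h5⟩ := heq (min (r₀ / 2) (η * r₀ / 2)) (by positivity)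
    refine ⟨r, hr, fun i l z hz => ?_⟩
    have h6 := h5 i z hz
    have h7 : ‖ψ₀ i z - c i‖ ≤ r₀ / 2 := h6.trans (min_le_left _ _)
    have h8 : ‖ψ₀ i z - c i‖ ≤ η * r₀ / 2 := h6.trans (min_le_right _ _)
    have hm : MapsTo (fun y : V n => ((y, fun j => ψ i j z) : V n × (Fin m → V n)))
        (ball (c i) r₀) {w | w.1 ∈ EE p ε ∧ ∀ j, w.2 j ∈ EE p ε} := fun y hy =>
      ⟨hball i hy, hψE i z hz.1⟩
    have hd : DifferentiableOn ℂ (fun y : V n => H i l (y, fun j => ψ i j z)) (ball (c i) r₀) :=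
      (h2 i l).comp (differentiableOn_id.prodMk (differentiableOn_const _)) hm
    have h9 := Complex.dist_le_div_mul_dist_of_mapsTo_ball (R₂ := 2) hd (fun y hy => by
      rw [mem_closedBall, dist_eq_norm]
      have h10 := norm_sub_le (H i l (y, fun j => ψ i j z)) (H i l (c i, fun j => ψ i j z))
      have h11 := h3 i l _ (hm hy)
      have h12 := h3 i l _ (hm (mem_ball_self hr₀0))
      beta_reduce at h11 h12 ⊢
      linarith) (z := ψ₀ i z) (by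
        rw [mem_ball, dist_eq_norm]
        linarith)
    rw [dist_eq_norm, dist_eq_norm] at h9
    rw [h4 i l z hz.1, hf'a]
    refine h9.trans ?_
    calc 2 / r₀ * ‖ψ₀ i z - c i‖ ≤ 2 / r₀ * (η * r₀ / 2) :=
          mul_le_mul_of_nonneg_left h8 (by positivity)
      _ = η := by field_simp
  obtain ⟨r, hr, hra⟩ := hclose (a / 2) (by positivity)
  have hcls' : Cls p ε m f' := by
    refine ⟨ψ, φ, fun i l w => H i l (c i, w), h1, fun i l => ?_, fun i l w hw => ?_,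
      fun i l z _ => hf'a i l z⟩
    · exact (h2 i l).comp ((differentiableOn_const _).prodMk differentiableOn_id)
        fun w hw => ⟨hcE i, hw⟩
    · exact h3 i l _ ⟨hcE i, hw⟩
  have hloc' : LocH q (min ρ r) (a / 2) Q f' G := by
    intro i
    obtain ⟨g, h5, h6, h7⟩ := hloc i
    have hsub : {z | z ∈ ball (0 : V n) 1 ∩ ball q (min ρ r) ∧ ∀ l, ‖f' i l z‖ < a / 2} ⊆
        {z | z ∈ ball (0 : V n) 1 ∩ ball q ρ ∧ ∀ l, ‖f i l z‖ < a} := by
      rintro z ⟨⟨hz, hzq⟩, hzl⟩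
      refine ⟨⟨hz, ball_subset_ball (min_le_left _ _) hzq⟩, fun l => ?_⟩
      have h8 := hra i l z ⟨hz, ball_subset_ball (min_le_right _ _) hzq⟩
      have h9 := norm_add_le (f i l z - f' i l z) (f' i l z)
      rw [sub_add_cancel] at h9
      linarith [hzl l]
    exact ⟨g, fun k => (h5 k).mono hsub, fun k z hz => h6 k z (hsub hz),
      fun z hz => h7 z (hsub hz)⟩
  have hsol := hP I L K f' G q (min ρ r) (a / 2) Q hq (lt_min hρ hr) (by positivity) hQ hcls' hG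
    hloc'
  have hfd : ∀ i l, DifferentiableOn ℂ (f i l) (ball 0 1) := by
    intro i l
    have h5 : DifferentiableOn ℂ (fun z => H i l (ψ₀ i z, fun j => ψ i j z)) (ball 0 1) :=
      (h2 i l).comp ((hψ₀ i).d1.prodMk (differentiableOn_pi.2 fun j => (h1 i j).d1))
        fun z hz => ⟨ball_EE hp hε0.le ((hψ₀ i).m1 hz), hψE i z hz⟩
    exact h5.congr (h4 i l)
  refine perturb ?_ hsol ?_
  · rintro i (l | k)
    · exact hfd i l
    · exact (hG i k).1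
  · intro η hη
    obtain ⟨r', hr', h5⟩ := hclose η hη
    refine ⟨r', hr', ?_⟩
    rintro i (l | k) z hz
    · exact h5 i l z hz
    · change ‖G i k z - G i k z‖ ≤ η
      rw [sub_self, norm_zero]
      exact hη.le

end Pool.Agent.V7H86.WP
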