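import Mathlib
import Pool.Agent.V7H86.WP.Ind

/-!
The induction step: one more automorphism.
-/

set_option autoImplicit false

open Metric Set Filter Topology Complex

namespace Pool.Agent.V7H86.WP

open Pool.Agent.TH310.Cor (V HB Aut Solv SolvL aut_mv Nr one_sub_mv one_sub_inner whit1 whit2)
open Pool.Agent.W732.Cor (mv S_mv S_ball t_mv t_ball)

variable {n : ℕ}

theorem solvL_congr {I ι : Type} [Fintype ι] {F F' : I → ι → V n → ℂ} {q : V n}
    (h : SolvL F q) (he : ∀ i j, ∀ z ∈ ball (0 : V n) 1, F i j z = F' i j z) : SolvL F' q := by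
  obtain ⟨C, ρ, hρ, hg⟩ := h
  refine ⟨C, ρ, hρ, fun i => ?_⟩
  obtain ⟨g, h1, h2, h3⟩ := hg i
  refine ⟨g, h1, h2, fun z hz => ?_⟩
  rw [← h3 z hz]
  exact Finset.sum_congr rfl fun j _ => by rw [he i j z hz.1]

/-- the cells are mapped near `q` -/
theorem cell_maps {q q' : V n} (hq : ‖q‖ = 1) (hqq : (inner ℂ q q' : ℂ) = 0) {ρ : ℝ}
    (hρ : 0 < ρ) (x : Nr (ρ ^ 2 / 6)) :
    MapsTo (mv q x) (ball (0 : V n) 1 ∩ ball q' (1 / 2)) (ball (0 : V n) 1 ∩ ball q ρ) := by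
  obtain ⟨hx1, hx2⟩ := x.2
  have A := aut_mv t_mv hq hx1
  rintro z ⟨hz, hzq⟩
  refine ⟨A.m1 hz, ?_⟩
  rw [mem_ball, dist_eq_norm] at hzq ⊢
  have h4 := (one_sub_mv t_mv hq hx1 hqq hz hzq).1
  by_contra hcon
  push Not at hcon
  have h6 := A.m1 hz
  rw [mem_ball_zero_iff] at h6
  have h5 := one_sub_inner hq h6.le hρ.le hcon
  linarith

theorem LocH.low {I L K : Type} [Fintype L] [Fintype K] {q : V n} {ρ a Q : ℝ}
    {f : I → L → V n → ℂ} {G : I → K → V n → ℂ} (hQ : 0 < Q)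
    (h : LocH q ρ a Q f G) (i : I) (z : V n) (hz : z ∈ ball (0 : V n) 1 ∩ ball q ρ) :
    min a (1 / Q) ≤ ∑ o, ‖Fm f G i o z‖ := by
  rw [Fintype.sum_sum_type]
  simp only [Fm, Sum.elim_inl, Sum.elim_inr]
  have h1 : 0 ≤ ∑ l, ‖f i l z‖ := Finset.sum_nonneg fun l _ => norm_nonneg _
  have h2 : 0 ≤ ∑ k, ‖G i k z‖ := Finset.sum_nonneg fun l _ => norm_nonneg _
  by_cases hl : ∀ l, ‖f i l z‖ < a
  · obtain ⟨g, -, h3, h4⟩ := h i
    have hzm : z ∈ {z | z ∈ ball (0 : V n) 1 ∩ ball q ρ ∧ ∀ l, ‖f i l z‖ < a} := ⟨hz, hl⟩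
    have h5 := h4 z hzm
    have h6 : (1 : ℝ) ≤ Q * ∑ k, ‖G i k z‖ := by
      calc (1 : ℝ) = ‖∑ k, G i k z * g k z‖ := by rw [h5, norm_one]
        _ ≤ ∑ k, ‖G i k z * g k z‖ := norm_sum_le _ _
        _ ≤ ∑ k, Q * ‖G i k z‖ := by
            refine Finset.sum_le_sum fun k _ => ?_
            rw [norm_mul, mul_comm]
            exact mul_le_mul_of_nonneg_right (h3 k z hzm) (norm_nonneg _)
        _ = Q * ∑ k, ‖G i k z‖ := by rw [Finset.mul_sum]
    have h7 : 1 / Q ≤ ∑ k, ‖G i k z‖ := by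
      rw [div_le_iff₀ hQ]
      linarith
    have h8 := min_le_right a (1 / Q)
    linarith
  · push Not at hl
    obtain ⟨l, hl⟩ := hl
    have h3 := Finset.single_le_sum (f := fun l => ‖f i l z‖) (fun _ _ => norm_nonneg _)
      (Finset.mem_univ l)
    have h8 := min_le_left a (1 / Q)
    beta_reduce at h3
    linarith

theorem ClsH.hb {p : V n} (hp : ‖p‖ = 1) {ε : ℝ} (hε : 0 ≤ ε) {m : ℕ} {I L : Type}
    {ψ₀ φ₀ : I → V n → V n} (hψ₀ : ∀ i, Aut (ψ₀ i) (φ₀ i))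
    {f : I → L → V n → ℂ} (h : ClsH p ε m ψ₀ f) (i : I) (l : L) : HB (f i l) := by
  obtain ⟨ψ, φ, H, h1, h2, h3, h4⟩ := h
  have hm : ∀ z ∈ ball (0 : V n) 1, ((ψ₀ i z, fun j => ψ i j z) : V n × (Fin m → V n)) ∈
      {w : V n × (Fin m → V n) | w.1 ∈ EE p ε ∧ ∀ j, w.2 j ∈ EE p ε} :=
    fun z hz => ⟨ball_EE hp hε ((hψ₀ i).m1 hz), fun j => ball_EE hp hε ((h1 i j).m1 hz)⟩
  refine ⟨?_, fun z hz => ?_⟩
  · have h5 : DifferentiableOn ℂ (fun z => H i l (ψ₀ i z, fun j => ψ i j z)) (ball 0 1) :=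
      (h2 i l).comp ((hψ₀ i).d1.prodMk (differentiableOn_pi.2 fun j => (h1 i j).d1)) hm
    exact h5.congr (h4 i l)
  · rw [h4 i l z hz]
    exact h3 i l _ (hm z hz)

theorem Fm_hb {I L K : Type} {f : I → L → V n → ℂ} {G : I → K → V n → ℂ}
    (hf : ∀ i l, HB (f i l)) (hG : ∀ i k, HB (G i k)) : ∀ i o, HB (Fm f G i o) := by
  rintro i (l | k)
  · exact hf i l
  · exact hG i k

theorem Fm_comp {I I' L K : Type} (f : I → L → V n → ℂ) (G : I → K → V n → ℂ) (r : I' → I)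
    (τ : I' → V n → V n) (x : I') (o : L ⊕ K) (z : V n) :
    Fm (fun x l z => f (r x) l (τ x z)) (fun x k z => G (r x) k (τ x z)) x o z =
      Fm f G (r x) o (τ x z) := by
  rcases o with l | k <;> rfl

theorem EE_congr {p q : V n} {ω : ℂ} (hω : ‖ω‖ = 1) (h : q = ω • p) (ε : ℝ) :
    EE q ε = EE p ε := by
  ext y
  change (1 - ε) * ‖y‖ ^ 2 + ε * ‖(inner ℂ q y : ℂ)‖ ^ 2 < 1 ↔
    (1 - ε) * ‖y‖ ^ 2 + ε * ‖(inner ℂ p y : ℂ)‖ ^ 2 < 1
  rw [h, inner_smul_left, norm_mul, RCLike.norm_conj, hω, one_mul]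

theorem eq_smul_of_norm_inner {p q : V n} (hp : ‖p‖ = 1) (hq : ‖q‖ = 1)
    (h : ‖(inner ℂ p q : ℂ)‖ = 1) : q = (inner ℂ p q : ℂ) • p := by
  have h1 := norm_perp hp q
  rw [hq, h] at h1
  have h2 : ‖q - (inner ℂ p q : ℂ) • p‖ = 0 := by
    have h3 : ‖q - (inner ℂ p q : ℂ) • p‖ ^ 2 = 0 := by linarith
    exact pow_eq_zero_iff (two_ne_zero) |>.1 h3
  exact sub_eq_zero.1 (norm_eq_zero.1 h2)

section

variable {p : V n} {ε : ℝ} {m : ℕ} {I L K : Type} [Fintype L] [Fintype K]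
  {f : I → L → V n → ℂ} {G : I → K → V n → ℂ} {q : V n} {ρ a Q : ℝ}

/-- the step with the identity -/
theorem step_id (hp : ‖p‖ = 1) (hε0 : 0 < ε) (hε1 : ε ≤ 1) (hP : PP p ε m) (hq : ‖q‖ = 1)
    (hρ : 0 < ρ) (ha : 0 < a) (hQ : 0 < Q) {ψ₀ φ₀ : I → V n → V n}
    (hψ₀ : ∀ i, Aut (ψ₀ i) (φ₀ i)) (hcls : ClsH p ε m ψ₀ f)
    (hG : ∀ i k, HB (G i k)) (hloc : LocH q ρ a Q f G)
    (hid : ∀ i, ∀ z ∈ ball (0 : V n) 1, ψ₀ i z = z) : SolvL (Fm f G) q := by
  have hle : ‖(inner ℂ p q : ℂ)‖ ≤ 1 := (inner_le hp q).trans hq.le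
  rcases lt_or_eq_of_le hle with hlt | hone
  · refine inv hp hε0 hε1 hP hq hρ ha hQ hψ₀ hcls hG hloc (κ := 1 - ‖(inner ℂ p q : ℂ)‖)
      (by linarith) (by linarith [norm_nonneg (inner ℂ p q : ℂ)]) (fun _ => q) (fun _ => hq.le)
      (fun _ => by linarith) fun η hη => ⟨η, hη, fun i z hz => ?_⟩
    rw [hid i z hz.1, ← dist_eq_norm]
    exact (mem_ball.1 hz.2).le
  · have hqp := eq_smul_of_norm_inner hp hq hone
    have hEq : EE q ε = EE p ε := EE_congr hone hqp ε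
    refine whit2 t_mv t_ball hq (Fm_hb (fun i l => hcls.hb hp hε0.le hψ₀ i l) hG)
      (δ := min a (1 / Q)) (by positivity) hρ (fun i z hz => hloc.low hQ i z hz) ?_
    intro q' hq' hqq
    have hκ0 : 0 < ρ ^ 2 / 6 := by positivity
    refine ⟨ρ ^ 2 / 6, hκ0, ?_⟩
    have hA : ∀ x : I × Nr (ρ ^ 2 / 6), Aut (mv q x.2) (mv q (-(x.2 : ℂ))) := fun x =>
      aut_mv t_mv hq x.2.2.1
    have hc1 : ClsH p ε m (fun (x : I × Nr (ρ ^ 2 / 6)) z => ψ₀ x.1 (mv q x.2 z))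
        (fun (x : I × Nr (ρ ^ 2 / 6)) l z => f x.1 l (mv q x.2 z)) :=
      hcls.comp (fun x : I × Nr (ρ ^ 2 / 6) => x.1) hA
    have hc2 : ClsH p ε m (fun (_ : I × Nr (ρ ^ 2 / 6)) z => z)
        (fun (x : I × Nr (ρ ^ 2 / 6)) l z => f x.1 l (mv q x.2 z)) := by
      refine hc1.head (A := fun x => mv q x.2) (fun x => ?_) (fun x => ?_) fun x z hz => ?_
      · rw [← hEq]
        exact mv_diff_EE hq hε1 (mem_ball_zero_iff.1 x.2.2.1)
      · rw [← hEq]
        exact fun y hy => mv_EE hq hε1 (mem_ball_zero_iff.1 x.2.2.1) hy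
      · exact hid x.1 _ ((hA x).m1 hz)
    have hl2 : LocH q' (1 / 2) a Q (fun (x : I × Nr (ρ ^ 2 / 6)) l z => f x.1 l (mv q x.2 z))
        (fun (x : I × Nr (ρ ^ 2 / 6)) k z => G x.1 k (mv q x.2 z)) :=
      hloc.comp (fun x : I × Nr (ρ ^ 2 / 6) => x.1) (fun x => (hA x).d1)
        fun x => cell_maps hq hqq hρ x.2
    have hpq' : (inner ℂ p q' : ℂ) = 0 := by
      have h1 := hqq
      rw [hqp, inner_smul_left] at h1
      rcases mul_eq_zero.1 h1 with h2 | h2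
      · exfalso
        rw [map_eq_zero] at h2
        rw [h2, norm_zero] at hone
        exact zero_ne_one hone
      · exact h2
    have hsol := inv hp hε0 hε1 hP hq' (by norm_num : (0 : ℝ) < 1 / 2) ha hQ
      (ψ₀ := fun (_ : I × Nr (ρ ^ 2 / 6)) z => z) (φ₀ := fun _ z => z)
      (fun _ => ⟨differentiableOn_id, differentiableOn_id, fun _ h => h, fun _ h => h,
        fun _ _ => rfl, fun _ _ => rfl⟩) hc2
      (fun x k => (hG x.1 k).comp (hA x)) hl2 (κ := 1) one_pos le_rfl (fun _ => q')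
      (fun _ => hq'.le) (fun _ => by rw [hpq', norm_zero]; linarith) fun η hη =>
        ⟨η, hη, fun x z hz => by
          rw [← dist_eq_norm]
          exact (mem_ball.1 hz.2).le⟩
    exact solvL_congr hsol fun x o z _ => Fm_comp f G (fun x : I × Nr (ρ ^ 2 / 6) => x.1)
      (fun x => mv q x.2) x o z

/-- the step with automorphisms which are Lipschitz in both directions -/
theorem step_lip (hp : ‖p‖ = 1) (hε0 : 0 < ε) (hε1 : ε ≤ 1) (hP : PP p ε m) (hq : ‖q‖ = 1)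
    (hρ : 0 < ρ) (ha : 0 < a) (hQ : 0 < Q) {σ τ : I → V n → V n}
    (hA : ∀ i, Aut (σ i) (τ i)) (hcls : ClsH p ε m σ f)
    (hG : ∀ i k, HB (G i k)) (hloc : LocH q ρ a Q f G) {Λ : ℝ} (hΛ : 1 ≤ Λ)
    (hσ : ∀ i, ∀ z ∈ ball (0 : V n) 1, ∀ w ∈ ball (0 : V n) 1, ‖σ i z - σ i w‖ ≤ Λ * ‖z - w‖)
    (hτ : ∀ i, ∀ z ∈ ball (0 : V n) 1, ∀ w ∈ ball (0 : V n) 1, ‖τ i z - τ i w‖ ≤ Λ * ‖z - w‖) :
    SolvL (Fm f G) q := by
  refine transfer hq hA hΛ hσ hτ hρ fun c hc r hr => ?_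
  let J : Type := {i : I // MapsTo (τ i) (ball 0 1 ∩ ball c r) (ball 0 1 ∩ ball q ρ)}
  have hc1 : ClsH p ε m (fun (x : J) z => σ x.1 (τ x.1 z)) (fun (x : J) l z => f x.1 l (τ x.1 z)) :=
    hcls.comp (fun x : J => x.1) (τ := fun x => τ x.1) (σ := fun x => σ x.1)
      fun x => (hA x.1).symm
  have hl1 : LocH c r a Q (fun (x : J) l z => f x.1 l (τ x.1 z))
      (fun (x : J) k z => G x.1 k (τ x.1 z)) :=
    hloc.comp (fun x : J => x.1) (τ := fun x => τ x.1) (fun x => (hA x.1).d2) fun x => x.2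
  have hsol := step_id hp hε0 hε1 hP hc hr ha hQ
    (ψ₀ := fun (x : J) z => σ x.1 (τ x.1 z)) (φ₀ := fun (x : J) z => σ x.1 (τ x.1 z))
    (fun x => (hA x.1).comp (hA x.1).symm) hc1
    (fun x k => (hG x.1 k).comp (hA x.1).symm) hl1 fun x z hz => (hA x.1).i2 z hz
  exact solvL_congr hsol fun x o z _ => Fm_comp f G (fun x : J => x.1) (fun x => τ x.1) x o z

theorem lip_mv {u : V n} (hu : ‖u‖ = 1) {c : ℂ} (hc : ‖c‖ < 1) {z w : V n}
    (hz : z ∈ ball (0 : V n) 1) (hw : w ∈ ball (0 : V n) 1) :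
    ‖mv u c z - mv u c w‖ ≤ 4 / (1 - ‖c‖) * ‖z - w‖ := by
  have hz1 := (mem_ball_zero_iff.1 hz).le
  have hw1 := (mem_ball_zero_iff.1 hw).le
  exact mv_lip hu hc.le hw1 (by linarith) (de_ge hu c hz1) (de_ge hu c hw1)

/-- the step with `ψ₀ = U ∘ mv q₀ (-t)`, `⟨p, U q₀⟩ = 0` -/
theorem step_axis (hp : ‖p‖ = 1) (hε0 : 0 < ε) (hε1 : ε ≤ 1) (hP : PP p ε m) {q₀ : V n}
    (hq₀ : ‖q₀‖ = 1) (hq : ‖q‖ = 1) (hρ : 0 < ρ) (ha : 0 < a) (hQ : 0 < Q)
    {ψ₀ φ₀ : I → V n → V n} (hψ₀ : ∀ i, Aut (ψ₀ i) (φ₀ i))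
    (U : I → V n ≃ₗᵢ[ℂ] V n) (t : I → ℝ) (ht0 : ∀ i, 0 ≤ t i) (ht1 : ∀ i, t i < 1)
    (hU : ∀ i, (inner ℂ p (U i q₀) : ℂ) = 0)
    (hψ : ∀ i, ∀ z ∈ ball (0 : V n) 1, ψ₀ i z = U i (mv q₀ (-(t i : ℂ)) z))
    (hcls : ClsH p ε m ψ₀ f)
    (hG : ∀ i k, HB (G i k)) (hloc : LocH q ρ a Q f G) : SolvL (Fm f G) q := by
  have htn : ∀ i, ‖(-(t i : ℂ))‖ = t i := fun i => by
    rw [norm_neg, Complex.norm_real, Real.norm_of_nonneg (ht0 i)]
  have htb : ∀ i, (-(t i : ℂ)) ∈ ball (0 : ℂ) 1 := fun i => by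
    rw [mem_ball_zero_iff, htn]
    exact ht1 i
  -- the vectors `U⁻¹ p`
  have hUp : ∀ i z, (inner ℂ p (U i z) : ℂ) = inner ℂ ((U i).symm p) z := fun i z => by
    have h := (U i).inner_map_map ((U i).symm p) z
    rwa [(U i).apply_symm_apply] at h
  have hv1 : ∀ i, ‖(U i).symm p‖ = 1 := fun i => by rw [(U i).symm.norm_map, hp]
  have hv0 : ∀ i, (inner ℂ ((U i).symm p) q₀ : ℂ) = 0 := fun i => by rw [← hUp, hU]
  by_cases hqq₀ : q = q₀
  · -- cells
    subst hqq₀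
    refine whit2 t_mv t_ball hq (Fm_hb (fun i l => hcls.hb hp hε0.le hψ₀ i l) hG)
      (δ := min a (1 / Q)) (by positivity) hρ (fun i z hz => hloc.low hQ i z hz) ?_
    intro q' hq' hqq
    have hκ0 : 0 < ρ ^ 2 / 6 := by positivity
    refine ⟨ρ ^ 2 / 6, hκ0, ?_⟩
    have hA : ∀ x : I × Nr (ρ ^ 2 / 6), Aut (mv q x.2) (mv q (-(x.2 : ℂ))) := fun x =>
      aut_mv t_mv hq x.2.2.1
    have hcomp : ∀ x : I × Nr (ρ ^ 2 / 6), ∃ (c θ : ℂ), ‖c‖ < 1 ∧ ‖θ‖ = 1 ∧
        ∀ z ∈ ball (0 : V n) 1, mv q (-(t x.1 : ℂ)) (mv q x.2 z) = Dt q θ (mv q c z) := by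
      intro x
      obtain ⟨c, θ, h1, h2, -, h3⟩ := mv_comp hq (a := (x.2 : ℂ)) (b := -(t x.1 : ℂ))
        (mem_ball_zero_iff.1 x.2.2.1) (mem_ball_zero_iff.1 (htb x.1))
      exact ⟨c, θ, h1, h2, h3⟩
    choose c θ hc hθ hcθ using hcomp
    have hcb : ∀ x, c x ∈ ball (0 : ℂ) 1 := fun x => mem_ball_zero_iff.2 (hc x)
    -- the new head
    have hAx : ∀ x : I × Nr (ρ ^ 2 / 6), Aut (fun z => U x.1 (Dt q (θ x) (mv q (c x) z)))
        (fun z => mv q (-(c x)) (Dt q (starRingEnd ℂ (θ x)) ((U x.1).symm z))) := fun x =>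
      (U_aut (U x.1)).comp ((Dt_aut hq (hθ x)).comp (aut_mv t_mv hq (hcb x)))
    have hc1 : ClsH p ε m (fun (x : I × Nr (ρ ^ 2 / 6)) z => ψ₀ x.1 (mv q x.2 z))
        (fun (x : I × Nr (ρ ^ 2 / 6)) l z => f x.1 l (mv q x.2 z)) :=
      hcls.comp (fun x : I × Nr (ρ ^ 2 / 6) => x.1) hA
    have hc2 : ClsH p ε m (fun (x : I × Nr (ρ ^ 2 / 6)) z => U x.1 (Dt q (θ x) (mv q (c x) z)))
        (fun (x : I × Nr (ρ ^ 2 / 6)) l z => f x.1 l (mv q x.2 z)) := by
      refine hc1.head (A := fun _ z => z) (fun _ => differentiableOn_id) (fun _ => mapsTo_id _)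
        fun x z hz => ?_
      rw [hψ x.1 _ ((hA x).m1 hz), hcθ x z hz]
    have hl2 : LocH q' (1 / 2) a Q (fun (x : I × Nr (ρ ^ 2 / 6)) l z => f x.1 l (mv q x.2 z))
        (fun (x : I × Nr (ρ ^ 2 / 6)) k z => G x.1 k (mv q x.2 z)) :=
      hloc.comp (fun x : I × Nr (ρ ^ 2 / 6) => x.1) (fun x => (hA x).d1)
        fun x => cell_maps hq hqq hρ x.2
    have hG2 : ∀ (x : I × Nr (ρ ^ 2 / 6)) k, HB (fun z => G x.1 k (mv q x.2 z)) := fun x k =>
      (hG x.1 k).comp (hA x)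
    refine solvL_congr (F := Fm (fun (x : I × Nr (ρ ^ 2 / 6)) l z => f x.1 l (mv q x.2 z))
        (fun (x : I × Nr (ρ ^ 2 / 6)) k z => G x.1 k (mv q x.2 z))) ?_
      (fun x o z _ => Fm_comp f G (fun x : I × Nr (ρ ^ 2 / 6) => x.1)
      (fun x => mv q x.2) x o z)
    refine split (fun x : I × Nr (ρ ^ 2 / 6) => ‖c x‖ ≤ 31 / 32) ?_ ?_
    · -- Lipschitz
      let J : Type := {x : I × Nr (ρ ^ 2 / 6) // ‖c x‖ ≤ 31 / 32}
      have hid : ∀ y : J, Aut (fun z : V n => z) (fun z => z) := fun _ =>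
        ⟨differentiableOn_id, differentiableOn_id, fun _ h => h, fun _ h => h,
          fun _ _ => rfl, fun _ _ => rfl⟩
      have h1 := hc2.comp (fun y : J => y.1) hid
      have h2 := hl2.comp (fun y : J => y.1) (fun y => (hid y).d1) (c := q') (ρ' := 1 / 2)
        fun y => mapsTo_id _
      have h3 := step_lip hp hε0 hε1 hP hq' (by norm_num : (0 : ℝ) < 1 / 2) ha hQ
        (fun y : J => hAx y.1) h1 (fun y k => hG2 y.1 k) h2 (Λ := 128) (by norm_num)
        (fun y z hz w hw => ?_) (fun y z hz w hw => ?_)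
      · exact h3
      · beta_reduce
        rw [← map_sub, (U y.1.1).norm_map, Dt_lip hq (hθ y.1)]
        refine (lip_mv hq (hc y.1) hz hw).trans ?_
        have h4 : 1 / 32 ≤ 1 - ‖c y.1‖ := by linarith [y.2]
        have h5 : 4 / (1 - ‖c y.1‖) ≤ 128 := by
          rw [div_le_iff₀ (by linarith)]
          linarith
        exact mul_le_mul_of_nonneg_right h5 (norm_nonneg _)
      · beta_reduce
        have hc' : ‖-(c y.1)‖ < 1 := by rw [norm_neg]; exact hc y.1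
        have hm : ∀ z ∈ ball (0 : V n) 1, Dt q (starRingEnd ℂ (θ y.1)) ((U y.1.1).symm z) ∈
            ball (0 : V n) 1 := fun z hz => (Dt_aut hq (hθ y.1)).m2 ((U_aut (U y.1.1)).m2 hz)
        refine (lip_mv hq hc' (hm z hz) (hm w hw)).trans ?_
        rw [Dt_lip hq (by rw [RCLike.norm_conj, hθ]), ← map_sub, (U y.1.1).symm.norm_map,
          norm_neg]
        have h4 : 1 / 32 ≤ 1 - ‖c y.1‖ := by linarith [y.2]
        have h5 : 4 / (1 - ‖c y.1‖) ≤ 128 := by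
          rw [div_le_iff₀ (by linarith)]
          linarith
        exact mul_le_mul_of_nonneg_right h5 (norm_nonneg _)
    · -- invisible
      let J : Type := {x : I × Nr (ρ ^ 2 / 6) // ¬ ‖c x‖ ≤ 31 / 32}
      have hid : ∀ y : J, Aut (fun z : V n => z) (fun z => z) := fun _ =>
        ⟨differentiableOn_id, differentiableOn_id, fun _ h => h, fun _ h => h,
          fun _ _ => rfl, fun _ _ => rfl⟩
      have h1 := hc2.comp (fun y : J => y.1) hid
      have h2 := hl2.comp (fun y : J => y.1) (fun y => (hid y).d1) (c := q') (ρ' := 1 / 2)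
        fun y => mapsTo_id _
      have hdeq : ∀ y : J, de q (c y.1) q' = 1 := fun y => by
        rw [de, hqq, mul_zero, add_zero]
      refine inv hp hε0 hε1 hP hq' (by norm_num : (0 : ℝ) < 1 / 2) ha hQ
        (fun y : J => hAx y.1) h1 (fun y k => hG2 y.1 k) h2 (κ := 1 / 2) (by norm_num)
        (by norm_num) (fun y => U y.1.1 (Dt q (θ y.1) (mv q (c y.1) q'))) (fun y => ?_)
        (fun y => ?_) fun η hη => ?_
      · rw [(U y.1.1).norm_map, Dt_norm hq (hθ y.1)]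
        exact norm_mv_le hq (hc y.1).le hq'.le
      · have hcy : 31 / 32 < ‖c y.1‖ := not_le.1 y.2
        have e1 : (inner ℂ p (U y.1.1 (Dt q (θ y.1) (mv q (c y.1) q'))) : ℂ) =
            θ y.1 * (((√(1 - ‖c y.1‖ ^ 2) : ℝ) : ℂ) * inner ℂ ((U y.1.1).symm p) q') := by
          rw [hUp, Dt, inner_add_right, inner_smul_right, inner_smul_right, inner_smul_right,
            hv0, inner_mv_perp (hv0 y.1.1), hdeq]
          ring
        have h5 : ‖(inner ℂ ((U y.1.1).symm p) q' : ℂ)‖ ≤ 1 :=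
          (inner_le (hv1 y.1.1) q').trans hq'.le
        have h6 : √(1 - ‖c y.1‖ ^ 2) ≤ 1 / 2 := by
          rw [Real.sqrt_le_left (by norm_num)]
          nlinarith
        rw [e1, norm_mul, norm_mul, hθ, one_mul, Complex.norm_real,
          Real.norm_of_nonneg (Real.sqrt_nonneg _)]
        have h7 := mul_le_mul h6 h5 (norm_nonneg _) (by norm_num)
        linarith
      · refine ⟨min (1 / 2) (η / 8), by positivity, fun y z hz => ?_⟩
        have hz1 := mem_ball_zero_iff.1 hz.1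
        have hz2 : ‖z - q'‖ < min (1 / 2) (η / 8) := by
          rw [← dist_eq_norm]
          exact mem_ball.1 hz.2
        have hz3 : ‖z - q'‖ < 1 / 2 := hz2.trans_le (min_le_left _ _)
        have hz4 : ‖z - q'‖ < η / 8 := hz2.trans_le (min_le_right _ _)
        have hdz : 1 / 2 ≤ ‖de q (c y.1) z‖ := by
          have h5 := de_lip hq (hc y.1).le z q'
          have h6 := norm_sub_norm_le (de q (c y.1) q') (de q (c y.1) q' - de q (c y.1) z)
          rw [sub_sub_cancel, norm_sub_rev, hdeq, norm_one] at h6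
          rw [hdeq] at h5
          linarith
        rw [← map_sub, (U y.1.1).norm_map, Dt_lip hq (hθ y.1)]
        have h5 := mv_lip hq (hc y.1).le hq'.le (by norm_num : (0 : ℝ) < 1 / 2) hdz
          (by rw [hdeq, norm_one]; norm_num)
        linarith
  · -- away from the axis
    obtain ⟨d, hd⟩ : ∃ d : ℝ, d = ‖1 - (inner ℂ q₀ q : ℂ)‖ := ⟨_, rfl⟩
    have hd0 : 0 < d := by
      rw [hd]
      refine norm_pos_iff.2 fun h => hqq₀ ?_
      have h1 : (inner ℂ q₀ q : ℂ) = 1 := (sub_eq_zero.1 h).symm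
      exact ((inner_eq_one_iff_of_norm_eq_one hq₀ hq).1 h1).symm
    have hd2 : d ≤ 2 := by
      rw [hd]
      have h1 := norm_sub_le (1 : ℂ) (inner ℂ q₀ q : ℂ)
      have h2 := (inner_le hq₀ q).trans hq.le
      rw [norm_one] at h1
      linarith
    have hde : ∀ i, ∀ z : V n, ‖z‖ ≤ 1 → ‖1 - (inner ℂ q₀ z : ℂ)‖ / 2 ≤
        ‖de q₀ (-(t i : ℂ)) z‖ := by
      intro i z hz
      obtain ⟨w, hw⟩ : ∃ w : ℂ, w = inner ℂ q₀ z := ⟨_, rfl⟩
      have hw1 : ‖w‖ ≤ 1 := by rw [hw]; exact (inner_le hq₀ z).trans hz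
      rw [de, map_neg, Complex.conj_ofReal, ← hw]
      have h1 : (1 : ℂ) - w = (1 + -(t i : ℂ) * w) - ((1 - t i : ℝ) : ℂ) * w := by
        push_cast
        ring
      have h2 := norm_sub_le (1 + -(t i : ℂ) * w) (((1 - t i : ℝ) : ℂ) * w)
      rw [← h1, norm_mul, Complex.norm_real, Real.norm_of_nonneg (by linarith [ht1 i])] at h2
      have h3 := norm_sub_norm_le (1 : ℂ) ((t i : ℂ) * w)
      rw [norm_one, norm_mul, Complex.norm_real, Real.norm_of_nonneg (ht0 i)] at h3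
      have h4 : (1 : ℂ) - (t i : ℂ) * w = 1 + -(t i : ℂ) * w := by ring
      rw [h4] at h3
      have h5 : t i * ‖w‖ ≤ t i * 1 := mul_le_mul_of_nonneg_left hw1 (ht0 i)
      have h6 : (1 - t i) * ‖w‖ ≤ (1 - t i) * 1 :=
        mul_le_mul_of_nonneg_left hw1 (by linarith [ht1 i])
      linarith
    have hdq : ∀ i, d / 2 ≤ ‖de q₀ (-(t i : ℂ)) q‖ := fun i => by
      have h1 := hde i q hq.le
      rwa [← hd] at h1
    have hAx : ∀ i, Aut (fun z => U i (mv q₀ (-(t i : ℂ)) z))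
        (fun z => mv q₀ (- -(t i : ℂ)) ((U i).symm z)) := fun i =>
      (U_aut (U i)).comp (aut_mv t_mv hq₀ (htb i))
    have hc2 : ClsH p ε m (fun i z => U i (mv q₀ (-(t i : ℂ)) z)) f :=
      hcls.head (A := fun _ z => z) (fun _ => differentiableOn_id) (fun _ => mapsTo_id _)
        fun i z hz => hψ i z hz
    refine split (fun i : I => d / 8 ≤ √(1 - t i ^ 2)) ?_ ?_
    · let J : Type := {i : I // d / 8 ≤ √(1 - t i ^ 2)}
      have hid : ∀ y : J, Aut (fun z : V n => z) (fun z => z) := fun _ =>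
        ⟨differentiableOn_id, differentiableOn_id, fun _ h => h, fun _ h => h,
          fun _ _ => rfl, fun _ _ => rfl⟩
      have h1 := hc2.comp (fun y : J => y.1) hid
      have h2 := hloc.comp (fun y : J => y.1) (fun y => (hid y).d1) (c := q) (ρ' := ρ)
        fun y => mapsTo_id _
      have ht2 : ∀ y : J, d ^ 2 / 128 ≤ 1 - t y.1 := by
        intro y
        have h5 : 0 ≤ 1 - t y.1 ^ 2 := by nlinarith [ht0 y.1, ht1 y.1]
        have h6 := pow_le_pow_left₀ (by positivity) y.2 2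
        rw [Real.sq_sqrt h5] at h6
        nlinarith [ht0 y.1, ht1 y.1]
      have hΛ0 : ∀ y : J, 4 / (1 - t y.1) ≤ 512 / d ^ 2 := by
        intro y
        have h5 := ht2 y
        have h6 : 0 < 1 - t y.1 := by linarith [ht1 y.1]
        rw [div_le_div_iff₀ h6 (by positivity)]
        nlinarith
      refine step_lip hp hε0 hε1 hP hq hρ ha hQ (fun y : J => hAx y.1) h1
        (fun y k => hG y.1 k) h2 (Λ := 512 / d ^ 2) ?_
        (fun y z hz w hw => ?_) (fun y z hz w hw => ?_)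
      · rw [le_div_iff₀ (by positivity)]
        nlinarith
      · beta_reduce
        rw [← map_sub, (U y.1).norm_map]
        have h4 := lip_mv hq₀ (mem_ball_zero_iff.1 (htb y.1)) hz hw
        rw [htn] at h4
        exact h4.trans (mul_le_mul_of_nonneg_right (hΛ0 y) (norm_nonneg _))
      · beta_reduce
        rw [neg_neg]
        have h5 : ‖(t y.1 : ℂ)‖ = t y.1 := by
          rw [Complex.norm_real, Real.norm_of_nonneg (ht0 y.1)]
        have h4 := lip_mv hq₀ (c := (t y.1 : ℂ)) (by rw [h5]; exact ht1 y.1)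
          ((U_aut (U y.1)).m2 hz) ((U_aut (U y.1)).m2 hw)
        rw [h5, ← map_sub, (U y.1).symm.norm_map] at h4
        exact h4.trans (mul_le_mul_of_nonneg_right (hΛ0 y) (norm_nonneg _))
    · let J : Type := {i : I // ¬ d / 8 ≤ √(1 - t i ^ 2)}
      have hid : ∀ y : J, Aut (fun z : V n => z) (fun z => z) := fun _ =>
        ⟨differentiableOn_id, differentiableOn_id, fun _ h => h, fun _ h => h,
          fun _ _ => rfl, fun _ _ => rfl⟩
      have h1 := hc2.comp (fun y : J => y.1) hid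
      have h2 := hloc.comp (fun y : J => y.1) (fun y => (hid y).d1) (c := q) (ρ' := ρ)
        fun y => mapsTo_id _
      refine inv hp hε0 hε1 hP hq hρ ha hQ (fun y : J => hAx y.1) h1 (fun y k => hG y.1 k) h2
        (κ := 1 / 2) (by norm_num) (by norm_num) (fun y => U y.1 (mv q₀ (-(t y.1 : ℂ)) q))
        (fun y => ?_) (fun y => ?_) fun η hη => ?_
      · rw [(U y.1).norm_map]
        exact norm_mv_le hq₀ (mem_ball_zero_iff.1 (htb y.1)).le hq.le
      · have hsy : √(1 - t y.1 ^ 2) < d / 8 := not_le.1 y.2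
        rw [hUp, inner_mv_perp (hv0 y.1), norm_div, norm_mul, Complex.norm_real,
          Real.norm_of_nonneg (Real.sqrt_nonneg _), htn]
        have h5 : ‖(inner ℂ ((U y.1).symm p) q : ℂ)‖ ≤ 1 :=
          (inner_le (hv1 y.1) q).trans hq.le
        have h6 := hdq y.1
        have h7 : √(1 - t y.1 ^ 2) * ‖(inner ℂ ((U y.1).symm p) q : ℂ)‖ ≤ d / 8 * 1 :=
          mul_le_mul hsy.le h5 (norm_nonneg _) (by positivity)
        rw [div_le_iff₀ (by linarith)]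
        linarith
      · refine ⟨min (d / 2) (η * d / 16), by positivity, fun y z hz => ?_⟩
        have hz1 := mem_ball_zero_iff.1 hz.1
        have hz2 : ‖z - q‖ < min (d / 2) (η * d / 16) := by
          rw [← dist_eq_norm]
          exact mem_ball.1 hz.2
        have hz3 : ‖z - q‖ < d / 2 := hz2.trans_le (min_le_left _ _)
        have hz4 : ‖z - q‖ < η * d / 16 := hz2.trans_le (min_le_right _ _)
        have hdz : d / 4 ≤ ‖de q₀ (-(t y.1 : ℂ)) z‖ := by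
          have h5 := hde y.1 z hz1.le
          have h6 : d ≤ ‖1 - (inner ℂ q₀ z : ℂ)‖ + ‖z - q‖ := by
            have h7 : (1 : ℂ) - (inner ℂ q₀ q : ℂ) = (1 - (inner ℂ q₀ z : ℂ)) +
                inner ℂ q₀ (z - q) := by
              rw [inner_sub_right]
              ring
            rw [hd, h7]
            exact (norm_add_le _ _).trans (by linarith [inner_le hq₀ (z - q)])
          linarith
        rw [← map_sub, (U y.1).norm_map]
        have h5 := mv_lip hq₀ (mem_ball_zero_iff.1 (htb y.1)).le hq.le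
          (by positivity : (0 : ℝ) < d / 4) hdz (by linarith [hdq y.1])
        refine h5.trans ?_
        have h6 : 4 / (d / 4) * ‖z - q‖ ≤ 4 / (d / 4) * (η * d / 16) :=
          mul_le_mul_of_nonneg_left hz4.le (by positivity)
        refine h6.trans (le_of_eq ?_)
        field_simp
        norm_num

end

end Pool.Agent.V7H86.WP
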