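import Mathlib
import Pool.Agent.V7H86.WP.Steps

/-!
Localisation theorem for functions of finitely many automorphisms.
-/

set_option autoImplicit false

open Metric Set Filter Topology Complex

namespace Pool.Agent.V7H86.WP

open Pool.Agent.TH310.Cor (V HB Aut Solv SolvL aut_mv Nr one_sub_mv one_sub_inner whit1 whit2)
open Pool.Agent.W732.Cor (mv S_mv S_ball t_mv t_ball)

variable {n : ℕ}

theorem aut_id : Aut (fun z : V n => z) (fun z => z) :=
  ⟨differentiableOn_id, differentiableOn_id, fun _ h => h, fun _ h => h,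
    fun _ _ => rfl, fun _ _ => rfl⟩

section

variable {p : V n} {ε : ℝ} {m : ℕ} {I L K : Type} [Fintype L] [Fintype K]
  {f : I → L → V n → ℂ} {G : I → K → V n → ℂ} {q : V n} {ρ a Q : ℝ}

/-- the general step -/
theorem step_all (hp : ‖p‖ = 1) (hε0 : 0 < ε) (hε1 : ε ≤ 1) (hP : PP p ε m)
    (hq : ‖q‖ = 1) (hρ : 0 < ρ) (ha : 0 < a) (hQ : 0 < Q)
    {ψ₀ φ₀ : I → V n → V n} (hψ₀ : ∀ i, Aut (ψ₀ i) (φ₀ i)) (hcls : ClsH p ε m ψ₀ f)
    (hG : ∀ i k, HB (G i k)) (hloc : LocH q ρ a Q f G) : SolvL (Fm f G) q := by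
  choose c U u t hc hu ht0 ht1 horth hnorm using fun i => normal hp (hψ₀ i)
  have htn : ∀ i, ‖(-(t i : ℂ))‖ = t i := fun i => by
    rw [norm_neg, Complex.norm_real, Real.norm_of_nonneg (ht0 i)]
  have htb : ∀ i, (-(t i : ℂ)) ∈ ball (0 : ℂ) 1 := fun i => by
    rw [mem_ball_zero_iff, htn]
    exact ht1 i
  have hAx : ∀ i, Aut (fun z => U i (mv (u i) (-(t i : ℂ)) z))
      (fun z => mv (u i) (- -(t i : ℂ)) ((U i).symm z)) := fun i =>
    (U_aut (U i)).comp (aut_mv t_mv (hu i) (htb i))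
  have hc2 : ClsH p ε m (fun i z => U i (mv (u i) (-(t i : ℂ)) z)) f :=
    hcls.head (A := fun i => mv p (c i)) (fun i => mv_diff_EE hp hε1 (hc i))
      (fun i y hy => mv_EE hp hε1 (hc i) hy) hnorm
  refine split (fun i : I => t i ≤ 1 / 2) ?_ ?_
  · let J : Type := {i : I // t i ≤ 1 / 2}
    have h1 := hc2.comp (fun y : J => y.1) (fun _ => aut_id)
    have h2 := hloc.comp (fun y : J => y.1) (fun y => (aut_id (n := n)).d1) (c := q) (ρ' := ρ)
      fun y => mapsTo_id _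
    have hΛ0 : ∀ y : J, 4 / (1 - t y.1) ≤ 8 := by
      intro y
      have h5 : t y.1 ≤ 1 / 2 := y.2
      rw [div_le_iff₀ (by linarith)]
      linarith
    refine step_lip hp hε0 hε1 hP hq hρ ha hQ (fun y : J => hAx y.1) h1
      (fun y k => hG y.1 k) h2 (Λ := 8) (by norm_num)
      (fun y z hz w hw => ?_) (fun y z hz w hw => ?_)
    · beta_reduce
      rw [← map_sub, (U y.1).norm_map]
      have h4 := lip_mv (hu y.1) (mem_ball_zero_iff.1 (htb y.1)) hz hw
      rw [htn] at h4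
      exact h4.trans (mul_le_mul_of_nonneg_right (hΛ0 y) (norm_nonneg _))
    · beta_reduce
      rw [neg_neg]
      have h5 : ‖(t y.1 : ℂ)‖ = t y.1 := by
        rw [Complex.norm_real, Real.norm_of_nonneg (ht0 y.1)]
      have h4 := lip_mv (hu y.1) (c := (t y.1 : ℂ)) (by rw [h5]; exact ht1 y.1)
        ((U_aut (U y.1)).m2 hz) ((U_aut (U y.1)).m2 hw)
      rw [h5, ← map_sub, (U y.1).symm.norm_map] at h4
      exact h4.trans (mul_le_mul_of_nonneg_right (hΛ0 y) (norm_nonneg _))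
  · let J : Type := {i : I // ¬ t i ≤ 1 / 2}
    have h1 := hc2.comp (fun y : J => y.1) (fun _ => aut_id)
    have h2 := hloc.comp (fun y : J => y.1) (fun y => (aut_id (n := n)).d1) (c := q) (ρ' := ρ)
      fun y => mapsTo_id _
    choose R hR using fun y : J => exists_rot (hu y.1) hq
    refine transfer hq (F := Fm (fun y : J => f y.1) (fun y : J => G y.1))
      (σ := fun y z => R y z) (τ := fun y z => (R y).symm z) (fun y => U_aut (R y)) le_rfl
      (fun y z _ w _ => by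
        beta_reduce
        rw [← map_sub, (R y).norm_map, one_mul])
      (fun y z _ w _ => by
        beta_reduce
        rw [← map_sub, (R y).symm.norm_map, one_mul]) hρ fun e he r hr => ?_
    let J' : Type := {y : J // MapsTo (fun z => (R y).symm z) (ball 0 1 ∩ ball e r)
      (ball 0 1 ∩ ball q ρ)}
    have h3 := h1.comp (fun x : J' => x.1) (τ := fun x z => (R x.1).symm z)
      (σ := fun x z => R x.1 z) (fun x => (U_aut (R x.1)).symm)
    have h4 := h2.comp (fun x : J' => x.1) (τ := fun x z => (R x.1).symm z)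
      (fun x => (U_aut (R x.1)).d2) (c := e) (ρ' := r) fun x => x.2
    have hut : ∀ y : J, u y.1 = (R y).symm q := fun y => by
      rw [← hR y, (R y).symm_apply_apply]
    have horth2 : ∀ y : J, (inner ℂ p (U y.1 (u y.1)) : ℂ) = 0 := fun y => by
      have h5 := horth y.1
      have h6 : (1 / 2 : ℝ) < t y.1 := not_le.1 y.2
      rcases mul_eq_zero.1 h5 with h7 | h7
      · exfalso
        have h8 : t y.1 = 0 := by exact_mod_cast h7
        rw [h8] at h6
        norm_num at h6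
      · exact h7
    have hsol := step_axis hp hε0 hε1 hP hq he hr ha hQ
      (fun x : J' => (hAx x.1.1).comp (U_aut (R x.1)).symm)
      (fun x : J' => (R x.1).symm.trans (U x.1.1)) (fun x => t x.1.1) (fun x => ht0 x.1.1)
      (fun x => ht1 x.1.1) (fun x => ?_) (fun x z _ => ?_) h3
      (fun x k => (hG x.1.1 k).comp (U_aut (R x.1)).symm) h4
    · exact solvL_congr hsol fun x o z _ => Fm_comp (fun y : J => f y.1) (fun y : J => G y.1)
        (fun x : J' => x.1) (fun x z => (R x.1).symm z) x o z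
    · rw [LinearIsometryEquiv.trans_apply, ← hut]
      exact horth2 x.1
    · rw [LinearIsometryEquiv.trans_apply]
      congr 1
      rw [hut x.1]
      exact mv_rot (R x.1).symm q _ z

end

/-- **The local theorem.** -/
theorem PP_all {p : V n} (hp : ‖p‖ = 1) {ε : ℝ} (hε0 : 0 < ε) (hε1 : ε ≤ 1) :
    ∀ m, PP p ε m := by
  intro m
  induction m with
  | zero => exact PP_zero p ε
  | succ m ih =>
    intro I L K _ _ f G q ρ a Q hq hρ ha hQ hcls hG hloc
    obtain ⟨ψ₀, φ₀, h1, h2⟩ := hcls.toH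
    exact step_all hp hε0 hε1 ih hq hρ ha hQ h1 h2 hG hloc

/-- **The global theorem for families.** -/
theorem global {p : V n} (hp : ‖p‖ = 1) {ε : ℝ} (hε0 : 0 < ε) (hε1 : ε ≤ 1) {m : ℕ}
    {I L K : Type} [Fintype L] [Fintype K] {f : I → L → V n → ℂ} {G : I → K → V n → ℂ}
    {a Q : ℝ} (ha : 0 < a) (hQ : 0 < Q) (hcls : Cls p ε m f) (hG : ∀ i k, HB (G i k))
    (hloc : ∀ i, ∃ g : K → V n → ℂ,
      (∀ k, DifferentiableOn ℂ (g k) {z | z ∈ ball (0 : V n) 1 ∧ ∀ l, ‖f i l z‖ < a}) ∧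
      (∀ k, ∀ z ∈ {z | z ∈ ball (0 : V n) 1 ∧ ∀ l, ‖f i l z‖ < a}, ‖g k z‖ ≤ Q) ∧
      ∀ z ∈ {z | z ∈ ball (0 : V n) 1 ∧ ∀ l, ‖f i l z‖ < a}, ∑ k, G i k z * g k z = 1) :
    Solv (Fm f G) := by
  have hl : ∀ (q : V n) (ρ : ℝ), LocH q ρ a Q f G := by
    intro q ρ i
    obtain ⟨g, h1, h2, h3⟩ := hloc i
    have hsub : {z | z ∈ ball (0 : V n) 1 ∩ ball q ρ ∧ ∀ l, ‖f i l z‖ < a} ⊆
        {z | z ∈ ball (0 : V n) 1 ∧ ∀ l, ‖f i l z‖ < a} := fun z hz => ⟨hz.1.1, hz.2⟩
    exact ⟨g, fun k => (h1 k).mono hsub, fun k z hz => h2 k z (hsub hz),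
      fun z hz => h3 z (hsub hz)⟩
  refine whit1 t_mv t_ball hp (Fm_hb (fun i l => hcls.hb hp hε0.le i l) hG)
    (δ := min a (1 / Q)) (by positivity) (fun i z hz => (hl 0 1).low hQ i z ⟨hz, hz⟩) ?_
  intro q hq hpq
  have hA : ∀ x : I × ball (0 : ℂ) 1, Aut (mv p x.2) (mv p (-(x.2 : ℂ))) := fun x =>
    aut_mv t_mv hp x.2.2
  have h1 := hcls.comp (fun x : I × ball (0 : ℂ) 1 => x.1) hA
  have h2 : LocH q 1 a Q (fun (x : I × ball (0 : ℂ) 1) l z => f x.1 l (mv p x.2 z))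
      (fun (x : I × ball (0 : ℂ) 1) k z => G x.1 k (mv p x.2 z)) := by
    refine (hl 0 1).comp (fun x : I × ball (0 : ℂ) 1 => x.1) (fun x => (hA x).d1)
      fun x z hz => ⟨(hA x).m1 hz.1, (hA x).m1 hz.1⟩
  have h3 := PP_all hp hε0 hε1 m _ L K _ _ q 1 a Q hq one_pos ha hQ h1
    (fun x k => (hG x.1 k).comp (hA x)) h2
  exact solvL_congr h3 fun x o z _ => Fm_comp f G (fun x : I × ball (0 : ℂ) 1 => x.1)
    (fun x => mv p x.2) x o z

end Pool.Agent.V7H86.WP
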