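import Mathlib
import Pool.Agent.V7H86.WP.Main

/-!
Functions which are bounded and holomorphic on a larger domain which touches the sphere along
complex circles only.
-/

set_option autoImplicit false

open Metric Set Filter Topology Complex

namespace Pool.Agent.V7H86.WP

open Pool.Agent.TH310.Cor (V HB Aut Solv SolvL aut_mv Nr one_sub_mv one_sub_inner whit1 whit2)
open Pool.Agent.W732.Cor (mv S_mv S_ball t_mv t_ball)

variable {n : ℕ}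

theorem LocH.mono {I L K : Type} [Fintype K] {q : V n} {ρ ρ' a Q : ℝ}
    {f : I → L → V n → ℂ} {G : I → K → V n → ℂ} (h : LocH q ρ a Q f G) (hρ : ρ' ≤ ρ) :
    LocH q ρ' a Q f G := by
  intro i
  obtain ⟨g, h1, h2, h3⟩ := h i
  have hsub : {z | z ∈ ball (0 : V n) 1 ∩ ball q ρ' ∧ ∀ l, ‖f i l z‖ < a} ⊆
      {z | z ∈ ball (0 : V n) 1 ∩ ball q ρ ∧ ∀ l, ‖f i l z‖ < a} := fun z hz =>
    ⟨⟨hz.1.1, ball_subset_ball hρ hz.1.2⟩, hz.2⟩
  exact ⟨g, fun k => (h1 k).mono hsub, fun k z hz => h2 k z (hsub hz),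
    fun z hz => h3 z (hsub hz)⟩

/-- nearly constant functions -/
theorem equi {I L K : Type} [Fintype L] [Fintype K] {f : I → L → V n → ℂ} {G : I → K → V n → ℂ}
    {q : V n} {ρ a Q : ℝ} (hq : ‖q‖ = 1) (hρ : 0 < ρ) (ha : 0 < a) (hQ : 0 < Q)
    (hfd : ∀ i l, DifferentiableOn ℂ (f i l) (ball 0 1)) (hG : ∀ i k, HB (G i k))
    (hloc : LocH q ρ a Q f G) (k : I → L → ℂ) (hk : ∀ i l, ‖k i l‖ ≤ 1)
    (hclose : ∀ η : ℝ, 0 < η → ∃ r : ℝ, 0 < r ∧ ∀ i l, ∀ z ∈ ball (0 : V n) 1 ∩ ball q r,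
      ‖f i l z - k i l‖ ≤ η) : SolvL (Fm f G) q := by
  obtain ⟨r, hr, hra⟩ := hclose (a / 2) (by positivity)
  have hcls' : Cls q 1 0 (fun i l (_ : V n) => k i l) :=
    ⟨fun _ j => j.elim0, fun _ j => j.elim0, fun i l _ => k i l, fun _ j => j.elim0,
      fun _ _ => differentiableOn_const _, fun i l _ _ => hk i l, fun _ _ _ _ => rfl⟩
  have hloc' : LocH q (min ρ r) (a / 2) Q (fun i l (_ : V n) => k i l) G := by
    intro i
    obtain ⟨g, h5, h6, h7⟩ := hloc i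
    have hsub : {z | z ∈ ball (0 : V n) 1 ∩ ball q (min ρ r) ∧ ∀ l, ‖k i l‖ < a / 2} ⊆
        {z | z ∈ ball (0 : V n) 1 ∩ ball q ρ ∧ ∀ l, ‖f i l z‖ < a} := by
      rintro z ⟨⟨hz, hzq⟩, hzl⟩
      refine ⟨⟨hz, ball_subset_ball (min_le_left _ _) hzq⟩, fun l => ?_⟩
      have h8 := hra i l z ⟨hz, ball_subset_ball (min_le_right _ _) hzq⟩
      have h9 := norm_add_le (f i l z - k i l) (k i l)
      rw [sub_add_cancel] at h9
      linarith [hzl l]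
    exact ⟨g, fun k => (h5 k).mono hsub, fun k z hz => h6 k z (hsub hz),
      fun z hz => h7 z (hsub hz)⟩
  have hsol := PP_zero q 1 I L K (fun i l _ => k i l) G q (min ρ r) (a / 2) Q hq (lt_min hρ hr)
    (by positivity) hQ hcls' hG hloc'
  refine perturb ?_ hsol ?_
  · rintro i (l | k)
    · exact hfd i l
    · exact (hG i k).1
  · intro η hη
    obtain ⟨r', hr', h5⟩ := hclose η hη
    refine ⟨r', hr', ?_⟩
    rintro i (l | k) z hz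
    · exact h5 i l z hz
    · change ‖G i k z - G i k z‖ ≤ η
      rw [sub_self, norm_zero]
      exact hη.le

theorem norm_mv_bd {p : V n} (hp : ‖p‖ = 1) {a : ℂ} (ha : ‖a‖ < 1) {z : V n} (hz : ‖z‖ = 1)
    (hd : de p a z ≠ 0) : ‖mv p a z‖ = 1 := by
  have hD0 : 0 < ‖de p a z‖ := norm_pos_iff.2 hd
  have h1 := norm_nu_sq hp ha.le z
  have h2 := de_sq p a z
  rw [hz] at h1
  have h3 : ‖nu p a z‖ ^ 2 = ‖de p a z‖ ^ 2 := by linarith
  have h4 : ‖nu p a z‖ = ‖de p a z‖ := (sq_eq_sq₀ (norm_nonneg _) hD0.le).1 h3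
  rw [mv_eq, norm_smul, norm_div, norm_one, h4]
  field_simp

/-- local solvability at all boundary points implies solvability -/
theorem loc_glob {p : V n} (hp : ‖p‖ = 1) {I ι : Type} [Fintype ι] {F : I → ι → V n → ℂ}
    (hF : ∀ i j, HB (F i j)) {δ : ℝ} (hδ : 0 < δ)
    (hlow : ∀ i, ∀ z ∈ ball (0 : V n) 1, δ ≤ ∑ j, ‖F i j z‖)
    (hloc : ∀ q : V n, ‖q‖ = 1 → SolvL F q) : Solv F := by
  classical
  choose! C r hr hg using hloc
  obtain ⟨t, hts, htc⟩ := (isCompact_sphere (0 : V n) 1).elim_nhds_subcover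
    (fun c => ball c (r c / 2)) (fun c hc => ball_mem_nhds c (by
      have h1 := hr c (mem_sphere_zero_iff_norm.1 hc)
      linarith))
  obtain ⟨m, hm, hml⟩ := exists_low t (fun c => r c / 2) (fun c hc => by
      have h1 := hr c (mem_sphere_zero_iff_norm.1 (hts c hc))
      linarith)
  have hCt : ∀ c ∈ t, C c ≤ ∑ c ∈ t, |C c| := fun c hc =>
    (le_abs_self _).trans (Finset.single_le_sum (f := fun c => |C c|)
      (fun _ _ => abs_nonneg _) hc)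
  refine whit1 t_mv t_ball hp hF hδ hlow fun q hq hpq => ?_
  refine ⟨∑ c ∈ t, |C c|, min (1 / 2) (m / 8), by positivity, fun x => ?_⟩
  have hx1 : ‖(x.2 : ℂ)‖ < 1 := mem_ball_zero_iff.1 x.2.2
  have hdq : de p (x.2 : ℂ) q = 1 := by rw [de, hpq, mul_zero, add_zero]
  have hc1 : ‖mv p x.2 q‖ = 1 := norm_mv_bd hp hx1 hq (by rw [hdq]; exact one_ne_zero)
  obtain ⟨c, hct, hcc⟩ : ∃ c ∈ t, mv p x.2 q ∈ ball c (r c / 2) := by
    have h1 := htc (mem_sphere_zero_iff_norm.2 hc1)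
    simpa using h1
  rw [mem_ball, dist_eq_norm] at hcc
  have hA := aut_mv t_mv hp x.2.2
  have hmaps : MapsTo (mv p x.2) (ball (0 : V n) 1 ∩ ball q (min (1 / 2) (m / 8)))
      (ball (0 : V n) 1 ∩ ball c (r c)) := by
    rintro z ⟨hz, hzq⟩
    refine ⟨hA.m1 hz, ?_⟩
    rw [mem_ball, dist_eq_norm] at hzq ⊢
    have hz3 : ‖z - q‖ < 1 / 2 := hzq.trans_le (min_le_left _ _)
    have hz4 : ‖z - q‖ < m / 8 := hzq.trans_le (min_le_right _ _)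
    have hdz : 1 / 2 ≤ ‖de p (x.2 : ℂ) z‖ := by
      have h5 := de_lip hp hx1.le z q
      have h6 := norm_sub_norm_le (de p (x.2 : ℂ) q) (de p (x.2 : ℂ) q - de p (x.2 : ℂ) z)
      rw [sub_sub_cancel, norm_sub_rev, hdq, norm_one] at h6
      rw [hdq] at h5
      linarith
    have h5 := mv_lip hp hx1.le hq.le (by norm_num : (0 : ℝ) < 1 / 2) hdz
      (by rw [hdq, norm_one]; norm_num)
    have h6 := norm_add_le (mv p x.2 z - mv p x.2 q) (mv p x.2 q - c)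
    rw [sub_add_sub_cancel] at h6
    have h7 := hml c hct
    linarith
  obtain ⟨g, h1, h2, h3⟩ := hg c (mem_sphere_zero_iff_norm.1 (hts c hct)) x.1
  exact ⟨fun j z => g j (mv p x.2 z), fun j => (h1 j).comp (hA.d1.mono inter_subset_left) hmaps,
    fun j z hz => (h2 j _ (hmaps hz)).trans (hCt c hct), fun z hz => h3 _ (hmaps hz)⟩

/-- the cells in a neighbourhood of the closed ball -/
theorem cell_near {q q' : V n} (hq : ‖q‖ = 1) (hqq : (inner ℂ q q' : ℂ) = 0) (hq' : ‖q'‖ = 1)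
    {a : ℂ} (ha : ‖a‖ < 1) {r : ℝ} (hr0 : 0 < r) (hr : ‖1 - a‖ ≤ r ^ 2 / 96) (hr1 : r ≤ 1)
    {y : V n} (hy : ‖y - q'‖ < 1 / 2) : ‖mv q a y - q‖ < r := by
  obtain ⟨ζ, hζ⟩ : ∃ ζ : ℂ, ζ = inner ℂ q y := ⟨_, rfl⟩
  have hζ1 : ‖ζ‖ ≤ 1 / 2 := by
    have h3 : ζ = inner ℂ q (y - q') := by rw [inner_sub_right, hqq, sub_zero, hζ]
    rw [h3]
    exact (inner_le hq _).trans hy.le
  have hy1 : ‖y‖ ≤ 3 / 2 := by
    have h3 := norm_add_le (y - q') q'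
    rw [sub_add_cancel] at h3
    linarith
  have hyp : ‖y - ζ • q‖ ≤ 2 := by
    refine (norm_sub_le _ _).trans ?_
    rw [norm_smul, hq]
    linarith
  have hD : 1 / 2 ≤ ‖de q a y‖ := by
    rw [de, ← hζ]
    have h3 := norm_sub_norm_le (1 : ℂ) (-(starRingEnd ℂ a * ζ))
    rw [norm_one, norm_neg, sub_neg_eq_add, norm_mul, RCLike.norm_conj] at h3
    have h4 : ‖a‖ * ‖ζ‖ ≤ 1 * (1 / 2) := mul_le_mul ha.le hζ1 (norm_nonneg _) zero_le_one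
    linarith
  have hD0 : de q a y ≠ 0 := norm_pos_iff.1 (by linarith)
  obtain ⟨s, hs⟩ : ∃ s : ℝ, s = √(1 - ‖a‖ ^ 2) := ⟨_, rfl⟩
  have hs0 : 0 ≤ s := by rw [hs]; exact Real.sqrt_nonneg _
  have hs1 : s ≤ r / 6 := by
    rw [hs, Real.sqrt_le_left (by positivity)]
    have h3 := norm_sub_norm_le (1 : ℂ) a
    rw [norm_one] at h3
    nlinarith [norm_nonneg a]
  have heq : mv q a y - q = (1 / de q a y) • ((ζ * starRingEnd ℂ (1 - a) - (1 - a)) • q +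
      (s : ℂ) • (y - ζ • q)) := by
    have h3 : mv q a y - q = (1 / de q a y) • (nu q a y - de q a y • q) := by
      rw [smul_sub, smul_smul (1 / de q a y), one_div_mul_cancel hD0, one_smul, mv_eq]
    rw [h3]
    congr 1
    rw [nu, de, ← hζ, ← hs, map_sub, map_one]
    module
  rw [heq, norm_smul, norm_div, norm_one]
  have h4 : ‖(ζ * starRingEnd ℂ (1 - a) - (1 - a)) • q + (s : ℂ) • (y - ζ • q)‖ ≤
      2 * ‖1 - a‖ + s * 2 := by
    refine (norm_add_le _ _).trans (add_le_add ?_ ?_)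
    · rw [norm_smul, hq, mul_one]
      refine (norm_sub_le _ _).trans ?_
      rw [norm_mul, RCLike.norm_conj]
      nlinarith [norm_nonneg (1 - a)]
    · rw [norm_smul, Complex.norm_real, Real.norm_of_nonneg hs0]
      exact mul_le_mul_of_nonneg_left hyp hs0
  have h5 : 1 / ‖de q a y‖ ≤ 2 := by
    rw [div_le_iff₀ (by linarith)]
    linarith
  have h6 : 1 / ‖de q a y‖ * ‖(ζ * starRingEnd ℂ (1 - a) - (1 - a)) • q +
      (s : ℂ) • (y - ζ • q)‖ ≤ 2 * (2 * ‖1 - a‖ + s * 2) :=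
    mul_le_mul h5 h4 (norm_nonneg _) (by norm_num)
  have h7 : r ^ 2 ≤ r := by nlinarith
  nlinarith

/-- near each boundary point `q` the set contains an ellipsoid which touches the sphere along the
circle through `q` only -/
def Contact (Ω : Set (V n)) : Prop :=
  ∀ q : V n, ‖q‖ = 1 → ∃ ε r : ℝ, 0 < ε ∧ 0 < r ∧ EE q ε ∩ ball q r ⊆ Ω

theorem EE_mono (q : V n) (hq : ‖q‖ = 1) {ε ε' : ℝ} (h : ε' ≤ ε) : EE q ε' ⊆ EE q ε := by
  intro y hy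
  have h1 : (1 - ε') * ‖y‖ ^ 2 + ε' * ‖(inner ℂ q y : ℂ)‖ ^ 2 < 1 := hy
  have h2 : ‖(inner ℂ q y : ℂ)‖ ^ 2 ≤ ‖y‖ ^ 2 :=
    pow_le_pow_left₀ (norm_nonneg _) (inner_le hq y) 2
  change (1 - ε) * ‖y‖ ^ 2 + ε * ‖(inner ℂ q y : ℂ)‖ ^ 2 < 1
  nlinarith

theorem contact_local {Ω : Set (V n)} (hΩB : ball (0 : V n) 1 ⊆ Ω) (hΩ : Contact Ω)
    {I L K : Type} [Fintype L] [Fintype K]
    {f : I → L → V n → ℂ} {G : I → K → V n → ℂ} {a Q : ℝ} (ha : 0 < a) (hQ : 0 < Q)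
    (hfd : ∀ i l, DifferentiableOn ℂ (f i l) Ω) (hfb : ∀ i l, ∀ z ∈ Ω, ‖f i l z‖ ≤ 1)
    (hG : ∀ i k, HB (G i k)) {q : V n} (hq : ‖q‖ = 1) {ρ : ℝ} (hρ : 0 < ρ)
    (hloc : LocH q ρ a Q f G) : SolvL (Fm f G) q := by
  obtain ⟨ε₁, r₁, hε₁, hr₁, hsub₁⟩ := hΩ q hq
  obtain ⟨ε, hε⟩ : ∃ ε : ℝ, ε = min ε₁ 1 := ⟨_, rfl⟩
  have hε0 : 0 < ε := by rw [hε]; exact lt_min hε₁ one_pos
  have hε1 : ε ≤ 1 := by rw [hε]; exact min_le_right _ _
  have hsub : EE q ε ∩ ball q r₁ ⊆ Ω := fun y hy =>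
    hsub₁ ⟨EE_mono q hq (by rw [hε]; exact min_le_left _ _) hy.1, hy.2⟩
  obtain ⟨r, hr⟩ : ∃ r : ℝ, r = min r₁ 1 := ⟨_, rfl⟩
  have hr0 : 0 < r := by rw [hr]; exact lt_min hr₁ one_pos
  have hr1 : r ≤ 1 := by rw [hr]; exact min_le_right _ _
  have hrr₁ : r ≤ r₁ := by rw [hr]; exact min_le_left _ _
  obtain ⟨ρ', hρ'⟩ : ∃ ρ' : ℝ, ρ' = min ρ (r / 4) := ⟨_, rfl⟩
  have hρ'0 : 0 < ρ' := by rw [hρ']; positivity
  have hρ'ρ : ρ' ≤ ρ := by rw [hρ']; exact min_le_left _ _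
  have hρ'r : ρ' ≤ r / 4 := by rw [hρ']; exact min_le_right _ _
  have hloc' := hloc.mono hρ'ρ
  have hHB : ∀ i l, HB (f i l) := fun i l =>
    ⟨(hfd i l).mono hΩB, fun z hz => hfb i l z (hΩB hz)⟩
  refine whit2 t_mv t_ball hq (Fm_hb hHB hG) (δ := min a (1 / Q)) (by positivity) hρ'0
    (fun i z hz => hloc'.low hQ i z hz) ?_
  intro q' hq' hqq
  refine ⟨ρ' ^ 2 / 6, by positivity, ?_⟩
  have hA : ∀ x : I × Nr (ρ' ^ 2 / 6), Aut (mv q x.2) (mv q (-(x.2 : ℂ))) := fun x =>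
    aut_mv t_mv hq x.2.2.1
  have hl2 : LocH q' (1 / 2) a Q (fun (x : I × Nr (ρ' ^ 2 / 6)) l z => f x.1 l (mv q x.2 z))
      (fun (x : I × Nr (ρ' ^ 2 / 6)) k z => G x.1 k (mv q x.2 z)) :=
    hloc'.comp (fun x : I × Nr (ρ' ^ 2 / 6) => x.1) (fun x => (hA x).d1)
      fun x => cell_maps hq hqq hρ'0 x.2
  obtain ⟨r₀, hr₀⟩ : ∃ r₀ : ℝ, r₀ = ε / 4 := ⟨_, rfl⟩
  have hr₀0 : 0 < r₀ := by rw [hr₀]; positivity
  have hball : ball q' r₀ ⊆ EE q ε := by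
    intro y hy
    rw [mem_ball, dist_eq_norm] at hy
    have h5 : ‖y‖ ≤ 1 + r₀ := by
      have h6 := norm_add_le (y - q') q'
      rw [sub_add_cancel] at h6
      linarith
    have h6 : ‖(inner ℂ q y : ℂ)‖ ≤ r₀ := by
      have h7 : (inner ℂ q y : ℂ) = inner ℂ q (y - q') := by rw [inner_sub_right, hqq, sub_zero]
      rw [h7]
      exact (inner_le hq _).trans hy.le
    have h7 : ‖y‖ ^ 2 ≤ (1 + r₀) ^ 2 := pow_le_pow_left₀ (norm_nonneg _) h5 2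
    have h8 : ‖(inner ℂ q y : ℂ)‖ ^ 2 ≤ r₀ ^ 2 := pow_le_pow_left₀ (norm_nonneg _) h6 2
    have h9 : (1 + r₀) ^ 2 ≤ 1 + 3 * r₀ := by nlinarith
    have h10 : r₀ ^ 2 ≤ r₀ / 4 := by nlinarith
    change (1 - ε) * ‖y‖ ^ 2 + ε * ‖(inner ℂ q y : ℂ)‖ ^ 2 < 1
    have h11 := mul_le_mul_of_nonneg_left (h7.trans h9) (sub_nonneg.2 hε1)
    have h12 := mul_le_mul_of_nonneg_left (h8.trans h10) hε0.le
    nlinarith
  have hmapsΩ : ∀ x : I × Nr (ρ' ^ 2 / 6), MapsTo (mv q x.2) (ball q' r₀) Ω := by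
    intro x y hy
    refine hsub ⟨mv_EE hq hε1 (mem_ball_zero_iff.1 x.2.2.1) (hball hy), ?_⟩
    rw [mem_ball, dist_eq_norm]
    have hy' : ‖y - q'‖ < 1 / 2 := by
      rw [← dist_eq_norm]
      have h5 := mem_ball.1 hy
      linarith
    refine (cell_near hq hqq hq' (mem_ball_zero_iff.1 x.2.2.1) hr0 ?_ hr1 hy').trans_le hrr₁
    have h5 := x.2.2.2
    have h6 : ρ' ^ 2 ≤ (r / 4) ^ 2 := pow_le_pow_left₀ hρ'0.le hρ'r 2
    nlinarith
  have hdx : ∀ (x : I × Nr (ρ' ^ 2 / 6)) l,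
      DifferentiableOn ℂ (fun y => f x.1 l (mv q x.2 y)) (ball q' r₀) := fun x l =>
    (hfd x.1 l).comp ((mv_diff_EE hq hε1 (mem_ball_zero_iff.1 x.2.2.1)).mono hball) (hmapsΩ x)
  have hbx : ∀ (x : I × Nr (ρ' ^ 2 / 6)) l, ∀ y ∈ ball q' r₀, ‖f x.1 l (mv q x.2 y)‖ ≤ 1 :=
    fun x l y hy => hfb x.1 l _ (hmapsΩ x hy)
  have hsol := equi hq' (by norm_num : (0 : ℝ) < 1 / 2) ha hQ
    (f := fun (x : I × Nr (ρ' ^ 2 / 6)) l z => f x.1 l (mv q x.2 z))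
    (G := fun (x : I × Nr (ρ' ^ 2 / 6)) k z => G x.1 k (mv q x.2 z))
    (fun x l => (hHB x.1 l).1.comp (hA x).d1 (hA x).m1) (fun x k => (hG x.1 k).comp (hA x)) hl2
    (fun x l => f x.1 l (mv q x.2 q')) (fun x l => hbx x l _ (mem_ball_self hr₀0))
    fun η hη => ⟨min (r₀ / 2) (η * r₀ / 2), by positivity, fun x l z hz => by
      have h6 : ‖z - q'‖ < min (r₀ / 2) (η * r₀ / 2) := by
        rw [← dist_eq_norm]
        exact mem_ball.1 hz.2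
      have h7 : ‖z - q'‖ < r₀ / 2 := h6.trans_le (min_le_left _ _)
      have h8 : ‖z - q'‖ < η * r₀ / 2 := h6.trans_le (min_le_right _ _)
      have h9 := Complex.dist_le_div_mul_dist_of_mapsTo_ball (R₂ := 2) (hdx x l) (fun y hy => by
        rw [mem_closedBall, dist_eq_norm]
        have h10 := norm_sub_le (f x.1 l (mv q x.2 y)) (f x.1 l (mv q x.2 q'))
        have h11 := hbx x l y hy
        have h12 := hbx x l q' (mem_ball_self hr₀0)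
        linarith) (z := z) (by
          rw [mem_ball, dist_eq_norm]
          linarith)
      rw [dist_eq_norm, dist_eq_norm] at h9
      refine h9.trans ?_
      calc 2 / r₀ * ‖z - q'‖ ≤ 2 / r₀ * (η * r₀ / 2) :=
            mul_le_mul_of_nonneg_left h8.le (by positivity)
        _ = η := by field_simp⟩
  exact solvL_congr hsol fun x o z _ => Fm_comp f G (fun x : I × Nr (ρ' ^ 2 / 6) => x.1)
    (fun x => mv q x.2) x o z

/-- **Domains with complex contact.** -/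
theorem contact_global {p : V n} (hp : ‖p‖ = 1) {Ω : Set (V n)} (hΩB : ball (0 : V n) 1 ⊆ Ω)
    (hΩ : Contact Ω) {I L K : Type} [Fintype L] [Fintype K]
    {f : I → L → V n → ℂ} {G : I → K → V n → ℂ} {a Q : ℝ} (ha : 0 < a) (hQ : 0 < Q)
    (hfd : ∀ i l, DifferentiableOn ℂ (f i l) Ω) (hfb : ∀ i l, ∀ z ∈ Ω, ‖f i l z‖ ≤ 1)
    (hG : ∀ i k, HB (G i k))
    (hloc : ∀ i, ∃ g : K → V n → ℂ,
      (∀ k, DifferentiableOn ℂ (g k) {z | z ∈ ball (0 : V n) 1 ∧ ∀ l, ‖f i l z‖ < a}) ∧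
      (∀ k, ∀ z ∈ {z | z ∈ ball (0 : V n) 1 ∧ ∀ l, ‖f i l z‖ < a}, ‖g k z‖ ≤ Q) ∧
      ∀ z ∈ {z | z ∈ ball (0 : V n) 1 ∧ ∀ l, ‖f i l z‖ < a}, ∑ k, G i k z * g k z = 1) :
    Solv (Fm f G) := by
  have hl : ∀ (q : V n) (ρ : ℝ), LocH q ρ a Q f G := by
    intro q ρ i
    obtain ⟨g, h1, h2, h3⟩ := hloc i
    have hsub : {z | z ∈ ball (0 : V n) 1 ∩ ball q ρ ∧ ∀ l, ‖f i l z‖ < a} ⊆
        {z | z ∈ ball (0 : V n) 1 ∧ ∀ l, ‖f i l z‖ < a} := fun z hz => ⟨hz.1.1, hz.2⟩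
    exact ⟨g, fun k => (h1 k).mono hsub, fun k z hz => h2 k z (hsub hz),
      fun z hz => h3 z (hsub hz)⟩
  have hHB : ∀ i l, HB (f i l) := fun i l =>
    ⟨(hfd i l).mono hΩB, fun z hz => hfb i l z (hΩB hz)⟩
  exact loc_glob hp (Fm_hb hHB hG) (δ := min a (1 / Q)) (by positivity)
    (fun i z hz => (hl 0 1).low hQ i z ⟨hz, hz⟩) fun q hq =>
      contact_local hΩB hΩ ha hQ hfd hfb hG hq one_pos (hl q 1)

end Pool.Agent.V7H86.WP
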